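import Pool.Agent.V8H93.CS.Real

set_option autoImplicit false
set_option linter.unusedSectionVars false

/-!
# The bound for the part which does not split off
-/

open Module Function TensorProduct Matrix

noncomputable section

namespace Pool.Agent.V8H93.CS

open Pool.Agent.Y102 Pool.Agent.W516.DR Pool.Agent.H204R3.GP Pool.Agent.W516.KC
  Pool.Agent.H204R3.SP Pool.Agent.TH119.MX Pool.Agent.R917 Pool.Agent.N208.AM
  Pool.Agent.N755.CT Pool.Agent.V8H93.LK Pool.Agent.R917.DT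

/-! ### Generic real numbers -/

/-- The powers of `π` are linearly independent over the algebraic numbers. -/
theorem pi_pow_indep {t : ℕ} {a : Fin t → ℂ} (ha : ∀ j, IsAlgebraic ℚ (a j))
    (h : ∑ j : Fin t, ((Real.pi ^ (j : ℕ) : ℝ) : ℂ) * a j = 0) : ∀ j, a j = 0 := by
  classical
  by_contra hcon
  push Not at hcon
  obtain ⟨j0, hj0⟩ := hcon
  let b : Fin t → QBar := fun j => ⟨a j, mem_algebraicClosure_iff.2 (ha j)⟩
  let p : Polynomial QBar := ∑ j : Fin t, Polynomial.C (b j) * Polynomial.X ^ (j : ℕ)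
  have hp : p ≠ 0 := by
    intro h0
    have h1 := congrArg (fun q : Polynomial QBar => q.coeff (j0 : ℕ)) h0
    simp only [p, Polynomial.finsetSum_coeff, Polynomial.coeff_C_mul, Polynomial.coeff_X_pow,
      Polynomial.coeff_zero] at h1
    rw [Finset.sum_eq_single j0] at h1
    · rw [if_pos rfl, mul_one] at h1
      apply hj0
      exact congrArg (fun x : QBar => (x : ℂ)) h1
    · intro j _ hj
      rw [if_neg (fun h => hj (Fin.ext h.symm)), mul_zero]
    · intro hj
      exact absurd (Finset.mem_univ _) hj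
  have h1 : IsAlgebraic QBar (Real.pi : ℂ) := by
    refine ⟨p, hp, ?_⟩
    simp only [p, map_sum, map_mul, Polynomial.aeval_C, map_pow, Polynomial.aeval_X]
    rw [← h]
    refine Finset.sum_congr rfl fun j _ => ?_
    rw [mul_comm]
    push_cast
    rfl
  have h2 : IsAlgebraic ℚ (Real.pi : ℂ) := by
    have : Algebra.IsAlgebraic ℚ QBar := ⟨fun x =>
      (isAlgebraic_algebraMap_iff (algebraMap QBar ℂ).injective).1 (QBar.alg x)⟩
    exact h1.restrictScalars ℚ
  exact Pool.Agent.H340R2.LW.transcendental_pi_complex h2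

/-- The eigenvalues of rational endomorphisms are algebraic. -/
theorem alg_eig {W : Type} [AddCommGroup W] [Module ℚ W] [FiniteDimensional ℚ W]
    {X : Module.End ℚ W} {v : ℂ ⊗[ℚ] W} (hv : v ≠ 0) {a : ℂ} (h : X.baseChange ℂ v = a • v) :
    IsAlgebraic ℚ a := by
  refine ⟨minpoly ℚ X, minpoly.ne_zero (Algebra.IsIntegral.isIntegral X), ?_⟩
  have h1 : Module.End.HasEigenvector (X.baseChange ℂ : Module.End ℂ (ℂ ⊗[ℚ] W)) a v :=
    Module.End.hasEigenvector_iff.2 ⟨Module.End.mem_eigenspace_iff.2 h, hv⟩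
  have h2 := Module.End.aeval_apply_of_hasEigenvector
    (p := (minpoly ℚ X).map (algebraMap ℚ ℂ)) h1
  have h3 : Polynomial.aeval (X.baseChange ℂ : Module.End ℂ (ℂ ⊗[ℚ] W))
      ((minpoly ℚ X).map (algebraMap ℚ ℂ)) = 0 := by
    rw [Polynomial.aeval_map_algebraMap]
    have h4 := Polynomial.aeval_algHom_apply
      (Module.End.baseChangeHom ℚ ℂ W) X (minpoly ℚ X)
    rw [minpoly.aeval, map_zero] at h4
    exact h4
  rw [h3, LinearMap.zero_apply] at h2
  have h5 := (smul_eq_zero.1 h2.symm).resolve_right hv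
  rwa [Polynomial.eval_map_algebraMap] at h5

/-- Elements of a subspace which are linearly independent modulo another one. -/
theorem indep_mod {W : Type} [AddCommGroup W] [Module ℚ W] [FiniteDimensional ℚ W]
    (𝔱 K : Submodule ℚ W) : ∃ (q : ℕ) (Y : Fin q → W),
      finrank ℚ 𝔱 = finrank ℚ (𝔱 ⊓ K : Submodule ℚ W) + q ∧ (∀ i, Y i ∈ 𝔱) ∧
        ∀ c : Fin q → ℚ, ∑ i, c i • Y i ∈ K → c = 0 := by
  classical
  let K' : Submodule ℚ 𝔱 := K.submoduleOf 𝔱
  obtain ⟨q, hq⟩ : ∃ q, q = finrank ℚ (𝔱 ⧸ K') := ⟨_, rfl⟩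
  let bq : Basis (Fin q) ℚ (𝔱 ⧸ K') := (finBasis ℚ (𝔱 ⧸ K')).reindex (finCongr hq.symm)
  choose Y hY using fun i => Submodule.mkQ_surjective K' (bq i)
  refine ⟨q, fun i => Y i, ?_, fun i => (Y i).2, fun c hc => ?_⟩
  · have h1 := Submodule.finrank_quotient_add_finrank K'
    have h2 : finrank ℚ K' = finrank ℚ (𝔱 ⊓ K : Submodule ℚ W) := by
      have e1 : (K'.map 𝔱.subtype) = 𝔱 ⊓ K := by
        ext x
        constructor
        · rintro ⟨y, hy, rfl⟩
          exact ⟨y.2, hy⟩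
        · rintro ⟨h3, h4⟩
          exact ⟨⟨x, h3⟩, h4, rfl⟩
      rw [← e1]
      exact (Submodule.finrank_map_subtype_eq 𝔱 K').symm
    omega
  · have h1 : ∑ i, c i • bq i = 0 := by
      have h2 : (K'.mkQ (∑ i, c i • Y i)) = 0 := by
        rw [Submodule.mkQ_apply, Submodule.Quotient.mk_eq_zero]
        change ((∑ i, c i • Y i : 𝔱) : W) ∈ K
        rw [Submodule.coe_sum]
        exact hc
      rw [map_sum] at h2
      rw [← h2]
      exact Finset.sum_congr rfl fun i _ => by rw [map_smul, hY]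
    funext i
    exact Fintype.linearIndependent_iff.1 bq.linearIndependent c h1 i

/-- A basis of a subspace. -/
theorem exists_bas {W : Type} [AddCommGroup W] [Module ℚ W] [FiniteDimensional ℚ W]
    (𝔱 : Submodule ℚ W) : ∃ (t : ℕ) (X : Fin t → W), (∀ j, X j ∈ 𝔱) ∧
      ∀ Y ∈ 𝔱, ∃ κ : Fin t → ℚ, Y = ∑ j, κ j • X j := by
  refine ⟨finrank ℚ 𝔱, fun j => finBasis ℚ 𝔱 j, fun j => (finBasis ℚ 𝔱 j).2, fun Y hY => ?_⟩
  refine ⟨fun j => (finBasis ℚ 𝔱).repr ⟨Y, hY⟩ j, ?_⟩
  have h1 := congrArg (fun y : 𝔱 => (y : W)) ((finBasis ℚ 𝔱).sum_repr ⟨Y, hY⟩)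
  beta_reduce at h1
  rw [Submodule.coe_sum] at h1
  exact h1.symm

theorem alg_sum {m : ℕ} {c : Fin m → ℚ} {y : Fin m → ℂ} (hy : ∀ k, IsAlgebraic ℚ (y k)) :
    IsAlgebraic ℚ (∑ k, (c k : ℂ) * y k) := by
  rw [← mem_algebraicClosure_iff]
  refine sum_mem fun k _ => ?_
  rw [mem_algebraicClosure_iff]
  exact (isAlgebraic_algebraMap (c k)).mul (hy k)

variable {g d : ℕ} {A : AbVar g} (V : Structure d)

/-- The elements which act trivially on the structure. -/
def KK (A : AbVar g) (V : Structure d) : Submodule ℚ (Module.End ℚ A.H1) where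
  carrier := {X | ((0, X, 0) : Elt d A) ∈ LL A V}
  zero_mem' := (LL A V).zero_mem
  add_mem' := fun {X Y} hX hY => by
    have h := (LL A V).add_mem hX hY
    have h1 : ((0, X, 0) : Elt d A) + (0, Y, 0) = (0, X + Y, 0) := by
      rw [Prod.mk_add_mk, Prod.mk_add_mk, add_zero, add_zero]
    rw [h1] at h
    exact h
  smul_mem' := fun c X hX => by
    have h := (LL A V).smul_mem c hX
    have h1 : c • ((0, X, 0) : Elt d A) = (0, c • X, 0) := by
      rw [Prod.smul_mk, Prod.smul_mk, smul_zero, smul_zero]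
    rw [h1] at h
    exact h

theorem mem_KK {X : Module.End ℚ A.H1} : X ∈ KK A V ↔ ((0, X, 0) : Elt d A) ∈ LL A V := Iff.rfl

theorem KK_NA {X : Module.End ℚ A.H1} (h : X ∈ KK A V) : X ∈ A.NA := LL_NA V h

theorem KK_le_PP : KK A V ≤ PP A V := fun _ h => (mem_PP V).2 ⟨_, _, h⟩

/-- It is an ideal in the projection. -/
theorem KK_ideal {X Y : Module.End ℚ A.H1} (hX : X ∈ PP A V) (hY : Y ∈ KK A V) :
    X * Y - Y * X ∈ KK A V := by
  obtain ⟨Z, c, h⟩ := (mem_PP V).1 hX
  have h1 := (LL_closed V).br _ hY _ h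
  have h2 : br ((0, Y, 0) : Elt d A) (Z, X, c) = (0, X * Y - Y * X, 0) := by
    unfold br
    simp
  rw [h2] at h1
  exact h1

/-- The sum over a finite set of real multiples of the elements of the Lie algebra, with the
eigenvalues of the part acting on the structure. -/
theorem exists_real {F : ℕ → Submodule ℚ (Fin d → ℚ)} {ℓ : ℕ}
    (h0 : F 0 = ⊥) (hℓ : F ℓ = ⊤) (hmono : ∀ i, F i ≤ F (i + 1)) (hF : ∀ i, V.IsSub (F i))
    {ι : Type} [Fintype ι] (e : ι → Elt d A) (he : ∀ i, e i ∈ LL A V) (τ : ι → ℝ) :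
    ∃ U : Finset ℂ, U.card ≤ halves F ℓ ∧ ∀ σ : ℂ →+ ℂ, (∀ x : ℝ, σ x = 0) →
      (∀ a ∈ U, σ ((a.im : ℂ) * Complex.I) = 0) →
      (∀ z : ℂ, σ z = σ ((z.im : ℂ) * Complex.I)) → ∀ X' : EndC A,
      RepX σ (∑ i, (τ i : ℂ) • (e i).2.1.baseChange ℂ) X' → InC (LL A V) 0 X' 0 := by
  classical
  obtain ⟨p, hp, hcard, hann⟩ := exists_annih h0 hℓ hmono (fun i => (e i).1)
    (fun i k => LL_le V (FF_closed V (hF k)) (he i)) τ
  obtain ⟨Z, hZ⟩ : ∃ Z, Z = ∑ i, (τ i : ℂ) • (e i).1.map (fun q => (q : ℂ)) := ⟨_, rfl⟩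
  rw [← hZ] at hann
  refine ⟨upper p, hcard, fun σ h1 h2 h3 X' hX' => ?_⟩
  obtain ⟨Zs, Zn, h4, h5, h6, Λ, h7, h8⟩ := exists_jc Z
  obtain ⟨Z', hZ', hZ0⟩ := exists_RepZ h4 h5 h6 h7 σ
  have h9 : Z' = 0 := by
    refine hZ0 fun a ha => ?_
    have h10 := h8 a ha _ hann
    rw [h3]
    rcases lt_trichotomy a.im 0 with h | h | h
    · have h11 : (starRingEnd ℂ) a ∈ upper p := by
        rw [mem_upper hp, eval_conj, h10, map_zero, Complex.conj_im]
        exact ⟨rfl, by linarith⟩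
      have h12 := h2 _ h11
      rw [Complex.conj_im, Complex.ofReal_neg, neg_mul, map_neg, neg_eq_zero] at h12
      exact h12
    · rw [h, Complex.ofReal_zero, zero_mul, map_zero]
    · exact h2 a ((mem_upper hp).2 ⟨h10, h⟩)
  have h10 := inC_sum (Finset.univ : Finset ι) (fun i => (τ i : ℂ)) e fun i _ => he i
  rw [← hZ] at h10
  have h11 := (LL_closed V).rep σ _ _ _ _ _ hZ' hX' h10
  rw [h9] at h11
  have h12 : σ (∑ i, (τ i : ℂ) * ((e i).2.2 : ℂ)) = 0 := by
    have h13 : ∑ i, (τ i : ℂ) * ((e i).2.2 : ℂ) = ((∑ i, τ i * ((e i).2.2 : ℝ) : ℝ) : ℂ) := by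
      push_cast
      rfl
    rw [h13, h1]
  rwa [h12] at h11

/-- **The bound.** -/
theorem main_bound {F : ℕ → Submodule ℚ (Fin d → ℚ)} {ℓ : ℕ}
    (h0 : F 0 = ⊥) (hℓ : F ℓ = ⊤) (hmono : ∀ i, F i ≤ F (i + 1)) (hF : ∀ i, V.IsSub (F i))
    {𝔱 : Submodule ℚ (Module.End ℚ A.H1)} (ht : 𝔱 ≤ PP A V) {m : ℕ}
    (b : Basis (Fin m) ℂ (ℂ ⊗[ℚ] A.H1))
    (hb : ∀ X ∈ 𝔱, ∃ y : Fin m → ℝ, ∀ k, X.baseChange ℂ (b k) = ((y k : ℂ) * Complex.I) • b k) :
    finrank ℚ 𝔱 ≤ finrank ℚ (𝔱 ⊓ KK A V : Submodule ℚ (Module.End ℚ A.H1)) + halves F ℓ := by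
  classical
  by_contra hcon
  push Not at hcon
  -- elements which are independent modulo the kernel
  obtain ⟨q, Y, hq, hYt, hindep⟩ := indep_mod 𝔱 (KK A V)
  have hqr : halves F ℓ < q := by omega
  -- a generic element
  obtain ⟨t, bt, hbt, hbt'⟩ := exists_bas 𝔱
  choose y hy using fun j => hb _ (hbt j)
  have hyalg : ∀ j k, IsAlgebraic ℚ ((y j k : ℝ) : ℂ) := by
    intro j k
    have h1 := alg_eig (b.ne_zero k) (hy j k)
    have h2 : ((y j k : ℝ) : ℂ) = ((y j k : ℂ) * Complex.I) * (-Complex.I) := by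
      rw [mul_assoc, mul_neg, Complex.I_mul_I, neg_neg, mul_one]
    rw [h2]
    refine h1.mul ?_
    refine ⟨Polynomial.X ^ 2 + 1, ?_, ?_⟩
    · intro h0
      have h3 := congrArg (Polynomial.eval (1 : ℚ)) h0
      norm_num at h3
    · simp
  let τ : Fin t → ℝ := fun j => Real.pi ^ (j : ℕ)
  choose Z c hZ using fun j => (mem_PP V).1 (ht (hbt j))
  obtain ⟨U, hU, hmain⟩ := exists_real V h0 hℓ hmono hF
    (fun j => ((Z j, (bt j), c j) : Elt d A)) hZ τ
  let x : Fin m → ℂ := fun k => ((∑ j, τ j * y j k : ℝ) : ℂ) * Complex.I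
  let X0 : EndC A := ∑ j, (τ j : ℂ) • (bt j).baseChange ℂ
  have hx : ∀ k, X0 (b k) = x k • b k := by
    intro k
    change (∑ j, (τ j : ℂ) • (bt j).baseChange ℂ) (b k) = _
    rw [LinearMap.sum_apply]
    have h1 : x k = ∑ j, (τ j : ℂ) * ((y j k : ℂ) * Complex.I) := by
      change ((∑ j, τ j * y j k : ℝ) : ℂ) * Complex.I = _
      push_cast
      rw [Finset.sum_mul]
      exact Finset.sum_congr rfl fun j _ => by ring
    rw [h1, Finset.sum_smul]
    exact Finset.sum_congr rfl fun j _ => by rw [LinearMap.smul_apply, hy, smul_smul]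
  -- the additive maps
  have hrel : ∀ i, ∃ η : Fin m → ℂ, (∀ k, (Y i).baseChange ℂ (b k) =
      η k • b k) ∧ ∃ σ : ℂ →+ ℂ, ∀ k, σ (x k) = η k := by
    intro i
    obtain ⟨κ, hκ⟩ := hbt' _ (hYt i)
    refine ⟨fun k => ∑ j, (κ j : ℂ) * ((y j k : ℂ) * Complex.I), fun k => ?_, ?_⟩
    · rw [hκ]
      have h1 : (∑ j, κ j • bt j).baseChange ℂ = ∑ j, (κ j : ℂ) • (bt j).baseChange ℂ := by
        have h2 := map_sum (Module.End.baseChangeHom ℚ ℂ A.H1) (fun j => κ j • bt j) Finset.univ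
        refine h2.trans (Finset.sum_congr rfl fun j _ => ?_)
        change (κ j • (bt j)).baseChange ℂ = _
        rw [LinearMap.baseChange_smul]
        refine LinearMap.ext fun z => ?_
        rw [LinearMap.smul_apply, LinearMap.smul_apply]
        exact (Rat.cast_smul_eq_qsmul ℂ (κ j) _).symm
      rw [h1, LinearMap.sum_apply, Finset.sum_smul]
      exact Finset.sum_congr rfl fun j _ => by rw [LinearMap.smul_apply, hy, smul_smul]
    · refine Pool.Agent.N208.OU.exists_sigma fun c hc => ?_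
      -- the real sums vanish
      have h1 : ∑ j, ((τ j : ℝ) : ℂ) * (∑ k, (c k : ℂ) * ((y j k : ℝ) : ℂ)) = 0 := by
        have h2 : (∑ j, ((τ j : ℝ) : ℂ) * (∑ k, (c k : ℂ) * ((y j k : ℝ) : ℂ))) * Complex.I = 0 := by
          rw [← hc, Finset.sum_mul]
          simp only [x]
          push_cast
          simp only [Finset.mul_sum, Finset.sum_mul]
          rw [Finset.sum_comm]
          exact Finset.sum_congr rfl fun k _ => Finset.sum_congr rfl fun j _ => by ring
        exact (mul_eq_zero.1 h2).resolve_right Complex.I_ne_zero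
      have h2 := pi_pow_indep (fun j => alg_sum fun k => hyalg j k) h1
      have h3 : ∑ k, (c k : ℂ) * ∑ j, (κ j : ℂ) * ((y j k : ℂ) * Complex.I) =
          ∑ j, (κ j : ℂ) * (∑ k, (c k : ℂ) * ((y j k : ℝ) : ℂ)) * Complex.I := by
        simp only [Finset.mul_sum, Finset.sum_mul]
        rw [Finset.sum_comm]
        exact Finset.sum_congr rfl fun k _ => Finset.sum_congr rfl fun j _ => by ring
      rw [h3]
      exact Finset.sum_eq_zero fun j _ => by rw [h2 j, mul_zero, zero_mul]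
  choose η hη σ hσ using hrel
  -- a relation
  obtain ⟨e, he, he0⟩ : ∃ e : Fin q → ℂ, (∀ a ∈ U, ∑ i, e i * σ i ((a.im : ℂ) * Complex.I) = 0) ∧
      e ≠ 0 := by
    have h1 : ¬ LinearIndependent ℂ (fun (i : Fin q) (a : U) => σ i (((a : ℂ).im : ℂ) * Complex.I)) := by
      intro h2
      have h3 := h2.fintype_card_le_finrank
      rw [Fintype.card_fin, Module.finrank_fintype_fun_eq_card, Fintype.card_coe] at h3
      omega
    rw [Fintype.linearIndependent_iff] at h1
    push Not at h1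
    obtain ⟨e, he, i, hi⟩ := h1
    refine ⟨e, fun a ha => ?_, fun h => hi (congrFun h i)⟩
    have h2 := congrFun he ⟨a, ha⟩
    rw [Finset.sum_apply, Pi.zero_apply] at h2
    exact h2
  let S : ℂ →+ ℂ :=
    { toFun := fun z => ∑ i, e i * σ i ((z.im : ℂ) * Complex.I)
      map_zero' := by
        refine Finset.sum_eq_zero fun i _ => ?_
        rw [Complex.zero_im, Complex.ofReal_zero, zero_mul, map_zero, mul_zero]
      map_add' := fun z z' => by
        rw [← Finset.sum_add_distrib]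
        refine Finset.sum_congr rfl fun i _ => ?_
        rw [Complex.add_im, Complex.ofReal_add, add_mul, map_add, mul_add] }
  have hS : ∀ z, S z = ∑ i, e i * σ i ((z.im : ℂ) * Complex.I) := fun _ => rfl
  have hfin := hmain S (fun x => by
    rw [hS]
    refine Finset.sum_eq_zero fun i _ => ?_
    rw [Complex.ofReal_im, Complex.ofReal_zero, zero_mul, map_zero, mul_zero])
    (fun a ha => by
      rw [hS, ← he a ha]
      simp) (fun z => by
      rw [hS, hS]
      simp) (∑ i, e i • (Y i).baseChange ℂ)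
    ⟨m, b, x, hx, fun k => by
      rw [LinearMap.sum_apply, hS, Finset.sum_smul]
      refine Finset.sum_congr rfl fun i _ => ?_
      have h1 : (((x k).im : ℝ) : ℂ) * Complex.I = x k := by
        simp [x]
      rw [h1, hσ, LinearMap.smul_apply, hη, smul_smul]⟩
  apply he0
  funext i
  rw [Pi.zero_apply, ← Module.forall_dual_apply_eq_zero_iff ℚ]
  intro lam
  have h1 := hfin lam
  have h2 : cpt lam (0 : Matrix (Fin d) (Fin d) ℂ)
      (∑ i, e i • (Y i).baseChange ℂ) 0 =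
      ((0, ∑ i, lam (e i) • (Y i), 0) : Elt d A) := by
    unfold cpt
    rw [map_zero, cmpE_sum]
    refine Prod.ext ?_ (Prod.ext ?_ rfl)
    · ext j k
      exact map_zero lam
    · change ∑ i, Pool.Agent.W516.DR.cmpE lam (e i • (Y i).baseChange ℂ) = ∑ i, lam (e i) • Y i
      exact Finset.sum_congr rfl fun i _ => cmpE_smul_bc lam (e i) (Y i)
  rw [h2] at h1
  exact congrFun (hindep (fun i => lam (e i)) h1) i

end Pool.Agent.V8H93.CS

end
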