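import Pool.Agent.N208.OU.Cen
import Pool.Agent.V8H93.LK.Grp

set_option autoImplicit false
set_option linter.unusedSectionVars false

/-!
# The action of complex endomorphisms on a motive
-/

open Module Function TensorProduct Matrix

noncomputable section

namespace Pool.Agent.V8H93.CS

open Pool.Agent.Y102 Pool.Agent.W516.DR Pool.Agent.H204R3.GP Pool.Agent.W516.KC
  Pool.Agent.H204R3.SP Pool.Agent.TH119.MX Pool.Agent.R917 Pool.Agent.N208.AM
  Pool.Agent.N755.CT Pool.Agent.V8H93.LK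

variable {g : ℕ} {A : AbVar g} {s n : ℕ} {r : Fin s → ℕ} {B : Fin n → Ten A r} {w : Fin s → ℤ}

/-- The endomorphisms of the complex homology. -/
abbrev EndC (A : AbVar g) : Type := Module.End ℂ (ℂ ⊗[ℚ] A.H1)

/-- The endomorphism acts on the basis by a matrix. -/
def RelC (B : Fin n → Ten A r) (X : EndC A) (M : Matrix (Fin n) (Fin n) ℂ) : Prop :=
  ∀ a i (v : Fin (r i) → ℂ ⊗[ℚ] A.H1), dv X (bcm (Ω := ℂ) A.bas (B a i)) v =
    ∑ b, M b a * bcm (Ω := ℂ) A.bas (B b i) v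

theorem dv_add {κ : Type} [Fintype κ] [DecidableEq κ] {W : Type} [AddCommGroup W] [Module ℂ W]
    (X Y : Module.End ℂ W) (φ : MultilinearMap ℂ (fun _ : κ => W) ℂ) (v : κ → W) :
    dv (X + Y) φ v = dv X φ v + dv Y φ v := by
  unfold dv
  rw [← Finset.sum_add_distrib]
  exact Finset.sum_congr rfl fun k _ => by rw [LinearMap.add_apply, MultilinearMap.map_update_add]

theorem dv_smul {κ : Type} [Fintype κ] [DecidableEq κ] {W : Type} [AddCommGroup W] [Module ℂ W]
    (c : ℂ) (X : Module.End ℂ W) (φ : MultilinearMap ℂ (fun _ : κ => W) ℂ) (v : κ → W) :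
    dv (c • X) φ v = c * dv X φ v := by
  unfold dv
  rw [Finset.mul_sum]
  exact Finset.sum_congr rfl fun k _ => by
    rw [LinearMap.smul_apply, MultilinearMap.map_update_smul, smul_eq_mul]

theorem RelC.add {X Y : EndC A} {M N : Matrix (Fin n) (Fin n) ℂ} (hX : RelC B X M)
    (hY : RelC B Y N) : RelC B (X + Y) (M + N) := fun a i v => by
  rw [dv_add, hX, hY, ← Finset.sum_add_distrib]
  exact Finset.sum_congr rfl fun b _ => by rw [Matrix.add_apply, add_mul]

theorem RelC.smul {X : EndC A} {M : Matrix (Fin n) (Fin n) ℂ} (c : ℂ)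
    (hX : RelC B X M) : RelC B (c • X) (c • M) := fun a i v => by
  rw [dv_smul, hX, Finset.mul_sum]
  exact Finset.sum_congr rfl fun b _ => by rw [Matrix.smul_apply, smul_eq_mul, mul_assoc]

theorem RelC.zero : RelC B (0 : EndC A) 0 := fun a i v => by
  have h := dv_smul 0 (0 : EndC A) (bcm (Ω := ℂ) A.bas (B a i)) v
  rw [zero_smul, zero_mul] at h
  rw [h]
  exact (Finset.sum_eq_zero fun b _ => by rw [Matrix.zero_apply, zero_mul]).symm

theorem relC_of_rel {X : Module.End ℚ A.H1} {M : Matrix (Fin n) (Fin n) ℚ} (h : Rel B X M) :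
    RelC B (X.baseChange ℂ) (cq M) := by
  intro a i v
  rw [← bcm_dv A.bas X (B a i) (dact X (B a i)) (fun v => dact_apply _ _ _),
    bcm_comb A.bas (fun b => M b a) (fun b => B b i) (dact X (B a i)) (fun v => ?_)]
  · rfl
  · rw [h a i, _root_.sum_apply]
    rfl

theorem RelC.cmp {X : EndC A} {M : Matrix (Fin n) (Fin n) ℂ} (h : RelC B X M)
    (lam : ℂ →ₗ[ℚ] ℚ) : Rel B (Pool.Agent.W516.DR.cmpE lam X) (mp lam M) := by
  intro a i
  refine MultilinearMap.ext fun v => ?_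
  rw [dact_apply, _root_.sum_apply]
  have h1 := congrArg lam (h a i fun l => (1 : ℂ) ⊗ₜ[ℚ] v l)
  have h2 : lam (dv X (bcm (Ω := ℂ) A.bas (B a i)) fun l => (1 : ℂ) ⊗ₜ[ℚ] v l) =
      ∑ k, B a i (update v k (Pool.Agent.W516.DR.cmpE lam X (v k))) := by
    unfold dv
    rw [map_sum]
    refine Finset.sum_congr rfl fun k _ => ?_
    rw [cmp_bcm, Pool.Agent.W516.DR.cmpE_apply]
  rw [h2] at h1
  rw [h1, map_sum]
  refine Finset.sum_congr rfl fun b _ => ?_
  rw [bcm_one, _root_.smul_apply, smul_eq_mul, mul_comm, ← Algebra.smul_def, map_smul, smul_eq_mul,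
    mul_comm]
  rfl

theorem exists_RelC (hst : ∀ X ∈ A.NA, ∃ M, Rel B X M) {X : EndC A} (hX : X ∈ cx A.NA) :
    ∃ M, RelC B X M := by
  induction hX using Submodule.span_induction with
  | mem X hX =>
    obtain ⟨P, hP, rfl⟩ := hX
    obtain ⟨M, hM⟩ := hst P hP
    exact ⟨_, relC_of_rel hM⟩
  | zero => exact ⟨0, RelC.zero⟩
  | add a b _ _ ha hb =>
    obtain ⟨M, hM⟩ := ha
    obtain ⟨N, hN⟩ := hb
    exact ⟨_, hM.add hN⟩
  | smul c a _ ha =>
    obtain ⟨M, hM⟩ := ha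
    exact ⟨_, hM.smul c⟩

/-- Forms which are linearly independent over `ℚ` are linearly independent over `ℂ`. -/
theorem bcm_li (hB : LinearIndependent ℚ B) {c : Fin n → ℂ}
    (h : ∀ i (v : Fin (r i) → ℂ ⊗[ℚ] A.H1), ∑ a, c a * bcm (Ω := ℂ) A.bas (B a i) v = 0) :
    c = 0 := by
  funext a
  change c a = 0
  rw [← Module.forall_dual_apply_eq_zero_iff ℚ]
  intro π
  have h2 : ∑ a, π (c a) • B a = 0 := by
    funext i
    rw [Finset.sum_apply]
    refine Basis.ext_multilinear (fun _ => A.bas) fun I => ?_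
    rw [_root_.sum_apply]
    have h4 := congrArg π (h i fun l => A.bas.baseChange ℂ (I l))
    simp only [bcm_basis] at h4
    rw [map_sum, map_zero] at h4
    change ∑ a, π (c a) * B a i (fun l => A.bas (I l)) = 0
    rw [← h4]
    refine Finset.sum_congr rfl fun a _ => ?_
    rw [mul_comm (c a), ← Algebra.smul_def, map_smul, smul_eq_mul, mul_comm]
  exact Fintype.linearIndependent_iff.1 hB _ h2 a

theorem RelC.uniq (hB : LinearIndependent ℚ B) {X : EndC A} {M M' : Matrix (Fin n) (Fin n) ℂ}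
    (h : RelC B X M) (h' : RelC B X M') : M = M' := by
  ext b a
  have h1 := bcm_li hB (c := fun b => M b a - M' b a) fun i v => by
    simp only [sub_mul, Finset.sum_sub_distrib]
    rw [← h a i v, ← h' a i v, sub_self]
  exact sub_eq_zero.1 (congrFun h1 b)

/-- Simultaneous diagonalization. -/
theorem genC (hB : LinearIndependent ℚ B) {m : ℕ} (b : Basis (Fin m) ℂ (ℂ ⊗[ℚ] A.H1)) :
    ∃ (S S' : Matrix (Fin n) (Fin n) ℂ) (J : Fin n → Σ i : Fin s, (Fin (r i) → Fin m)),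
    S * S' = 1 ∧ S' * S = 1 ∧
    (∀ (M : Matrix (Fin n) (Fin n) ℂ) (θ : (Σ i : Fin s, (Fin (r i) → Fin m)) → ℂ),
      (∀ (p : Σ i : Fin s, (Fin (r i) → Fin m)) (a : Fin n),
        ∑ c, M c a * bcm (Ω := ℂ) A.bas (B c p.1) (fun k => b (p.2 k)) =
          θ p * bcm (Ω := ℂ) A.bas (B a p.1) (fun k => b (p.2 k))) →
      M = S * Matrix.diagonal (fun j => θ (J j)) * S') := by
  classical
  have key : ∀ c : Fin n → ℂ, (∀ p : Σ i : Fin s, (Fin (r i) → Fin m),
      ∑ a, c a * bcm (Ω := ℂ) A.bas (B a p.1) (fun k => b (p.2 k)) = 0) → c = 0 := by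
    intro c hc
    have h1 : ∀ i, ∑ a, c a • bcm (Ω := ℂ) A.bas (B a i) = 0 := by
      intro i
      refine Basis.ext_multilinear (fun _ => b) fun I => ?_
      rw [_root_.sum_apply]
      exact hc ⟨i, I⟩
    refine bcm_li hB fun i v => ?_
    have h2 := congrArg (fun F : MultilinearMap ℂ (fun _ : Fin (r i) => ℂ ⊗[ℚ] A.H1) ℂ => F v) (h1 i)
    simp only [_root_.sum_apply, _root_.smul_apply, _root_.zero_apply, smul_eq_mul] at h2
    exact h2
  obtain ⟨J, hJ⟩ := rows (fun (p : Σ i : Fin s, (Fin (r i) → Fin m)) (a : Fin n) =>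
    bcm (Ω := ℂ) A.bas (B a p.1) (fun k => b (p.2 k))) key
  obtain ⟨u, hu⟩ := hJ
  refine ⟨((u⁻¹ : (Matrix (Fin n) (Fin n) ℂ)ˣ) : Matrix (Fin n) (Fin n) ℂ), u, J,
    Units.inv_mul u, Units.mul_inv u, ?_⟩
  intro M θ h
  have h1 : (u : Matrix (Fin n) (Fin n) ℂ) * M = Matrix.diagonal (fun j => θ (J j)) * u := by
    rw [hu]
    ext j a
    rw [Matrix.mul_apply, Matrix.diagonal_mul]
    simp only [Matrix.of_apply]
    rw [← h]
    exact Finset.sum_congr rfl fun c _ => mul_comm _ _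
  rw [mul_assoc, ← h1, ← mul_assoc, Units.inv_mul, one_mul]

/-- The matrices of an endomorphism, and of the weights, for an eigenbasis. -/
theorem diagC (hB : LinearIndependent ℚ B) {Wt : Matrix (Fin n) (Fin n) ℚ} (hW : WRel w B Wt)
    {m : ℕ} (b : Basis (Fin m) ℂ (ℂ ⊗[ℚ] A.H1)) :
    ∃ (S S' : Matrix (Fin n) (Fin n) ℂ) (J : Fin n → Σ i : Fin s, (Fin (r i) → Fin m)),
    S * S' = 1 ∧ S' * S = 1 ∧
    (∀ (X : EndC A) (x : Fin m → ℂ), (∀ k, X (b k) = x k • b k) →
      ∀ M, RelC B X M → ∀ c : ℂ, M + c • cq Wt = S * Matrix.diagonal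
        (fun j => ∑ k, x ((J j).2 k) + c * (((r (J j).1 : ℚ) - 2 * w (J j).1 : ℚ) : ℂ)) * S') := by
  classical
  obtain ⟨S, S', J, h1, h2, h3⟩ := genC hB b
  refine ⟨S, S', J, h1, h2, fun X x hx M hM c => ?_⟩
  refine h3 _ (fun p => ∑ k, x (p.2 k) + c * (((r p.1 : ℚ) - 2 * w p.1 : ℚ) : ℂ)) fun p a => ?_
  have h4 : ∑ b', M b' a * bcm (Ω := ℂ) A.bas (B b' p.1) (fun k => b (p.2 k)) =
      (∑ k, x (p.2 k)) * bcm (Ω := ℂ) A.bas (B a p.1) (fun k => b (p.2 k)) := by
    rw [← hM a p.1]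
    unfold dv
    rw [Finset.sum_mul]
    refine Finset.sum_congr rfl fun k _ => ?_
    rw [hx, MultilinearMap.map_update_smul, smul_eq_mul, update_eq_self]
  have h5 := bcm_scal A.bas ((r p.1 : ℚ) - 2 * w p.1) (B a p.1)
      (((r p.1 : ℚ) - 2 * w p.1) • B a p.1) (fun v => rfl) (fun k => b (p.2 k))
  have h6 := bcm_comb A.bas (fun c => Wt c a) (fun c => B c p.1)
      (((r p.1 : ℚ) - 2 * w p.1) • B a p.1) (fun v => by
        rw [hW a p.1, _root_.sum_apply]
        rfl) (fun k => b (p.2 k))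
  rw [h5] at h6
  rw [add_mul, ← h4, mul_assoc, h6, Finset.mul_sum, ← Finset.sum_add_distrib]
  refine Finset.sum_congr rfl fun b' _ => ?_
  rw [Matrix.add_apply, Matrix.smul_apply, smul_eq_mul, add_mul, mul_assoc]
  rfl

end Pool.Agent.V8H93.CS

end
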