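import Pool.Agent.V8H93.CS.Jc
import Pool.Agent.V8H93.CS.Ten
import Pool.Agent.V8H93.LK.Semi

set_option autoImplicit false
set_option linter.unusedSectionVars false

/-!
# Closed Lie algebras
-/

open Module Function TensorProduct Matrix

noncomputable section

namespace Pool.Agent.V8H93.CS

open Pool.Agent.Y102 Pool.Agent.W516.DR Pool.Agent.H204R3.GP Pool.Agent.W516.KC
  Pool.Agent.H204R3.SP Pool.Agent.TH119.MX Pool.Agent.R917 Pool.Agent.N208.AM
  Pool.Agent.N755.CT Pool.Agent.V8H93.LK Pool.Agent.R917.DT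

variable {g d : ℕ} {A : AbVar g}

/-- The rational elements. -/
abbrev Elt (d : ℕ) (A : AbVar g) : Type := Matrix (Fin d) (Fin d) ℚ × Module.End ℚ A.H1 × ℚ

/-- The component of a complex element. -/
def cpt (lam : ℂ →ₗ[ℚ] ℚ) (Z : Matrix (Fin d) (Fin d) ℂ) (X : EndC A) (c : ℂ) : Elt d A :=
  (mp lam Z, Pool.Agent.W516.DR.cmpE lam X, lam c)

/-- The complex element is in the complexification. -/
def InC (𝔪 : Submodule ℚ (Elt d A)) (Z : Matrix (Fin d) (Fin d) ℂ) (X : EndC A) (c : ℂ) : Prop :=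
  ∀ lam, cpt lam Z X c ∈ 𝔪

/-- The bracket. -/
def br (a b : Elt d A) : Elt d A :=
  (a.1 * b.1 - b.1 * a.1, b.2.1 * a.2.1 - a.2.1 * b.2.1, 0)

variable (V : Structure d) (A)

/-- The generators. -/
def gen (D : Derivation QBar ℂ ℂ) (lam : ℂ →ₗ[ℚ] ℚ) : Elt d A :=
  (mp lam (XV V D), Pool.Agent.W516.DR.X0 A.basis tau D lam, lam (D tau / (2 * tau)))

variable {A}

/-- The matrix `Z'` is a replica of `Z`. -/
def RepZ (σ : ℂ →+ ℂ) (Z Z' : Matrix (Fin d) (Fin d) ℂ) : Prop :=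
  ∃ (N : ℕ) (Zs Zn : Matrix (Fin d) (Fin d) ℂ) (π : Fin N → Matrix (Fin d) (Fin d) ℂ)
    (δ : Fin N → ℂ), Z = Zs + Zn ∧ Commute Zs Zn ∧ IsNilpotent Zn ∧ ∑ t, π t = 1 ∧
      (∀ t, Zs * π t = δ t • π t) ∧ ∀ t, Z' * π t = σ (δ t) • π t

/-- The endomorphism `X'` is a replica of the diagonalizable endomorphism `X`. -/
def RepX (σ : ℂ →+ ℂ) (X X' : EndC A) : Prop :=
  ∃ (m : ℕ) (b : Basis (Fin m) ℂ (ℂ ⊗[ℚ] A.H1)) (x : Fin m → ℂ),
    (∀ k, X (b k) = x k • b k) ∧ ∀ k, X' (b k) = σ (x k) • b k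

/-- Closed Lie algebras. -/
structure Closed (𝔪 : Submodule ℚ (Elt d A)) : Prop where
  br : ∀ a ∈ 𝔪, ∀ b ∈ 𝔪, br a b ∈ 𝔪
  gen : ∀ D lam, gen A V D lam ∈ 𝔪
  rep : ∀ (σ : ℂ →+ ℂ) (Z Z' : Matrix (Fin d) (Fin d) ℂ) (X X' : EndC A) (c : ℂ),
    RepZ σ Z Z' → RepX σ X X' → InC 𝔪 Z X c → InC 𝔪 Z' X' (σ c)

variable (A) in
/-- The smallest closed Lie algebra. -/
def LL : Submodule ℚ (Elt d A) := sInf {𝔪 | Closed V 𝔪}

theorem LL_le {𝔪 : Submodule ℚ (Elt d A)} (h : Closed V 𝔪) : LL A V ≤ 𝔪 := sInf_le h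

theorem LL_closed : Closed V (LL A V) where
  br := fun a ha b hb => by
    unfold LL at ha hb ⊢
    rw [Submodule.mem_sInf] at ha hb ⊢
    exact fun 𝔪 h => h.br a (ha 𝔪 h) b (hb 𝔪 h)
  gen := fun D lam => by
    unfold LL
    rw [Submodule.mem_sInf]
    exact fun 𝔪 h => h.gen D lam
  rep := fun σ Z Z' X X' c hZ hX h lam => by
    have h0 : ∀ lam, cpt lam Z X c ∈ LL A V := h
    unfold LL at h0 ⊢
    rw [Submodule.mem_sInf]
    intro 𝔪 hm
    refine hm.rep σ Z Z' X X' c hZ hX (fun mu => ?_) lam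
    have h1 := h0 mu
    rw [Submodule.mem_sInf] at h1
    exact h1 𝔪 hm

/-! ### The components -/

/-- Every complex element is a combination of its components. -/
theorem exists_dec (Z : Matrix (Fin d) (Fin d) ℂ) (X : EndC A) (c : ℂ) :
    ∃ t : Finset (Basis.ofVectorSpaceIndex ℚ ℂ),
      Z = ∑ i ∈ t, (Basis.ofVectorSpace ℚ ℂ i) • (mp ((Basis.ofVectorSpace ℚ ℂ).coord i) Z).map
        (fun q => (q : ℂ)) ∧
      X = ∑ i ∈ t, (Basis.ofVectorSpace ℚ ℂ i) •
        (Pool.Agent.W516.DR.cmpE ((Basis.ofVectorSpace ℚ ℂ).coord i) X).baseChange ℂ ∧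
      c = ∑ i ∈ t, (Basis.ofVectorSpace ℚ ℂ i) * (((Basis.ofVectorSpace ℚ ℂ).coord i c : ℚ) : ℂ) := by
  classical
  let v := Basis.ofVectorSpace ℚ ℂ
  have hv : ∀ (x : ℂ) (t : Finset (Basis.ofVectorSpaceIndex ℚ ℂ)), (v.repr x).support ⊆ t →
      x = ∑ i ∈ t, v i * ((v.coord i x : ℚ) : ℂ) := by
    intro x t ht
    conv_lhs => rw [← v.linearCombination_repr x, Finsupp.linearCombination_apply,
      Finsupp.sum_of_support_subset _ ht _ (fun i _ => zero_smul ℚ (v i))]
    refine Finset.sum_congr rfl fun i _ => ?_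
    rw [Algebra.smul_def, mul_comm]
    rfl
  let b := Module.finBasis ℚ A.H1
  let t1 : Finset (Basis.ofVectorSpaceIndex ℚ ℂ) :=
    Finset.univ.biUnion fun p : Fin (finrank ℚ A.H1) × Fin (finrank ℚ A.H1) =>
      (v.repr ((b.baseChange ℂ).repr (X (b.baseChange ℂ p.1)) p.2)).support
  let t2 : Finset (Basis.ofVectorSpaceIndex ℚ ℂ) :=
    Finset.univ.biUnion fun p : Fin d × Fin d => (v.repr (Z p.1 p.2)).support
  obtain ⟨t, htt⟩ : ∃ t, t = t1 ∪ t2 ∪ (v.repr c).support := ⟨_, rfl⟩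
  refine ⟨t, ?_, ?_, ?_⟩
  · ext i j
    rw [Matrix.sum_apply]
    refine (hv (Z i j) t ?_).trans ?_
    · rw [htt]
      refine (Finset.subset_biUnion_of_mem (fun p : Fin d × Fin d =>
        (v.repr (Z p.1 p.2)).support) (Finset.mem_univ (i, j))).trans ?_
      exact Finset.subset_union_right.trans Finset.subset_union_left
    · exact Finset.sum_congr rfl fun k _ => rfl
  · refine (b.baseChange ℂ).ext fun p => ?_
    apply (b.baseChange ℂ).repr.injective
    ext q
    rw [LinearMap.sum_apply, map_sum, Finsupp.finsetSum_apply]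
    refine (hv _ t ?_).trans ?_
    · rw [htt]
      refine (Finset.subset_biUnion_of_mem
        (fun p : Fin (finrank ℚ A.H1) × Fin (finrank ℚ A.H1) =>
        (v.repr ((b.baseChange ℂ).repr (X (b.baseChange ℂ p.1)) p.2)).support)
        (Finset.mem_univ (p, q))).trans ?_
      exact Finset.subset_union_left.trans Finset.subset_union_left
    · refine Finset.sum_congr rfl fun i _ => ?_
      have h2 : ∀ z : ℂ ⊗[ℚ] A.H1, b.repr (Pool.Agent.W516.DR.cmp (v.coord i) z) q =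
          v.coord i ((b.baseChange ℂ).repr z q) := by
        intro z
        induction z with
        | zero => simp only [map_zero, Finsupp.zero_apply]
        | add z z' h h' => simp only [map_add, Finsupp.add_apply, h, h']
        | tmul a w =>
          rw [Pool.Agent.W516.DR.cmp_tmul, map_smul, Finsupp.smul_apply, Basis.baseChange_repr_tmul]
          rw [map_smul, smul_eq_mul, smul_eq_mul, mul_comm]
      rw [LinearMap.smul_apply, map_smul, Finsupp.smul_apply, smul_eq_mul, Basis.baseChange_apply,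
        LinearMap.baseChange_tmul, Basis.baseChange_repr_tmul, Pool.Agent.W516.DR.cmpE_apply,
        Algebra.smul_def, h2, mul_one]
      rfl
  · refine hv c t ?_
    rw [htt]
    exact Finset.subset_union_right

theorem cast_qsmul (q : ℚ) (x : ℂ) : (q : ℂ) * x = q • x := by
  rw [Algebra.smul_def]
  rfl

theorem cmpE_bc (lam : ℂ →ₗ[ℚ] ℚ) (X : Module.End ℚ A.H1) :
    Pool.Agent.W516.DR.cmpE lam (X.baseChange ℂ) = lam 1 • X := by
  refine LinearMap.ext fun w => ?_
  rw [Pool.Agent.W516.DR.cmpE_apply, LinearMap.baseChange_tmul, Pool.Agent.W516.DR.cmp_tmul]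
  rfl

theorem cmpE_smul_bc (lam : ℂ →ₗ[ℚ] ℚ) (a : ℂ) (X : Module.End ℚ A.H1) :
    Pool.Agent.W516.DR.cmpE lam (a • X.baseChange ℂ) = lam a • X := by
  refine LinearMap.ext fun w => ?_
  rw [Pool.Agent.W516.DR.cmpE_apply, LinearMap.smul_apply, LinearMap.baseChange_tmul, smul_tmul',
    smul_eq_mul, mul_one, Pool.Agent.W516.DR.cmp_tmul]
  rfl

theorem cmpE_add (lam : ℂ →ₗ[ℚ] ℚ) (X Y : EndC A) :
    Pool.Agent.W516.DR.cmpE lam (X + Y) =
      Pool.Agent.W516.DR.cmpE lam X + Pool.Agent.W516.DR.cmpE lam Y := by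
  refine LinearMap.ext fun w => ?_
  rw [Pool.Agent.W516.DR.cmpE_apply, LinearMap.add_apply, map_add]
  rfl

theorem cmpE_zero (lam : ℂ →ₗ[ℚ] ℚ) :
    Pool.Agent.W516.DR.cmpE lam (0 : EndC A) = 0 := by
  refine LinearMap.ext fun w => ?_
  rw [Pool.Agent.W516.DR.cmpE_apply, LinearMap.zero_apply, map_zero]
  rfl

theorem cmpE_sum (lam : ℂ →ₗ[ℚ] ℚ) {ι : Type} (t : Finset ι) (X : ι → EndC A) :
    Pool.Agent.W516.DR.cmpE lam (∑ i ∈ t, X i) = ∑ i ∈ t, Pool.Agent.W516.DR.cmpE lam (X i) := by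
  classical
  induction t using Finset.induction_on with
  | empty => rw [Finset.sum_empty, Finset.sum_empty, cmpE_zero]
  | insert a t ha ih => rw [Finset.sum_insert ha, Finset.sum_insert ha, cmpE_add, ih]

/-- Combinations of rational elements are in the complexification. -/
theorem inC_sum {𝔪 : Submodule ℚ (Elt d A)} {ι : Type} (t : Finset ι) (β : ι → ℂ)
    (e : ι → Elt d A) (h : ∀ i ∈ t, e i ∈ 𝔪) :
    InC 𝔪 (∑ i ∈ t, β i • ((e i).1).map (fun q => (q : ℂ)))
      (∑ i ∈ t, β i • ((e i).2.1).baseChange ℂ) (∑ i ∈ t, β i * ((e i).2.2 : ℂ)) := by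
  intro lam
  have h1 : cpt lam (∑ i ∈ t, β i • ((e i).1).map (fun q => (q : ℂ)))
      (∑ i ∈ t, β i • ((e i).2.1).baseChange ℂ) (∑ i ∈ t, β i * ((e i).2.2 : ℂ)) =
      ∑ i ∈ t, lam (β i) • e i := by
    refine Prod.ext ?_ (Prod.ext ?_ ?_)
    · rw [Prod.fst_sum]
      ext j k
      change lam ((∑ i ∈ t, β i • ((e i).1).map (fun q => (q : ℂ))) j k) = _
      rw [Matrix.sum_apply, Matrix.sum_apply, map_sum]
      refine Finset.sum_congr rfl fun i _ => ?_
      rw [Matrix.smul_apply, Matrix.map_apply, smul_eq_mul, mul_comm, cast_qsmul, map_smul,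
        Prod.smul_fst, Matrix.smul_apply, smul_eq_mul, smul_eq_mul, mul_comm]
    · rw [Prod.snd_sum, Prod.fst_sum]
      change Pool.Agent.W516.DR.cmpE lam _ = _
      rw [cmpE_sum]
      exact Finset.sum_congr rfl fun i _ => cmpE_smul_bc lam (β i) _
    · rw [Prod.snd_sum, Prod.snd_sum]
      change lam _ = _
      rw [map_sum]
      refine Finset.sum_congr rfl fun i _ => ?_
      rw [mul_comm, cast_qsmul, map_smul]
      change _ = lam (β i) * (e i).2.2
      rw [smul_eq_mul, mul_comm]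
  rw [h1]
  exact 𝔪.sum_mem fun i hi => 𝔪.smul_mem _ (h i hi)

/-- The elements of the complexification, as combinations. -/
theorem InC.dec {𝔪 : Submodule ℚ (Elt d A)} {Z : Matrix (Fin d) (Fin d) ℂ} {X : EndC A} {c : ℂ}
    (h : InC 𝔪 Z X c) : ∃ (t : Finset (Basis.ofVectorSpaceIndex ℚ ℂ))
      (e : Basis.ofVectorSpaceIndex ℚ ℂ → Elt d A), (∀ i, e i ∈ 𝔪) ∧
      Z = ∑ i ∈ t, (Basis.ofVectorSpace ℚ ℂ i) • ((e i).1).map (fun q => (q : ℂ)) ∧
      X = ∑ i ∈ t, (Basis.ofVectorSpace ℚ ℂ i) • ((e i).2.1).baseChange ℂ ∧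
      c = ∑ i ∈ t, (Basis.ofVectorSpace ℚ ℂ i) * ((e i).2.2 : ℂ) := by
  obtain ⟨t, h1, h2, h3⟩ := exists_dec Z X c
  exact ⟨t, fun i => cpt ((Basis.ofVectorSpace ℚ ℂ).coord i) Z X c, fun i => h _, h1, h2, h3⟩

/-! ### Closed conditions -/

section NA

theorem RepX.kills {σ : ℂ →+ ℂ} {X X' : EndC A} (h : RepX σ X X') {κ : Type} [Fintype κ]
    [DecidableEq κ] {φ : MultilinearMap ℂ (fun _ : κ => ℂ ⊗[ℚ] A.H1) ℂ} (hφ : Kills X φ) :
    Kills X' φ := by
  classical
  obtain ⟨m, b, x, h1, h2⟩ := h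
  let t : Finset ℂ := Finset.univ.image x
  have ht : ∀ k, x k ∈ t := fun k => Finset.mem_image_of_mem _ (Finset.mem_univ k)
  have hp : ∀ (p : Polynomial ℂ) k, Polynomial.aeval X p (b k) = p.eval (x k) • b k := by
    intro p k
    have h3 : Module.End.HasEigenvector X (x k) (b k) :=
      Module.End.hasEigenvector_iff.2 ⟨Module.End.mem_eigenspace_iff.2 (h1 k), b.ne_zero k⟩
    rw [Module.End.aeval_apply_of_hasEigenvector h3]
  have hX : Polynomial.aeval X (Lagrange.nodal t id) = 0 := by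
    refine b.ext fun k => ?_
    rw [hp, show (Lagrange.nodal t id : Polynomial ℂ).eval (x k) = 0 from
      Lagrange.eval_nodal_at_node (v := id) (ht k), zero_smul, LinearMap.zero_apply]
  have hQ : ∀ a ∈ t, (Lagrange.interpolate t id fun a => σ a).eval a = σ a := fun a ha =>
    Lagrange.eval_interpolate_at_node (fun a => σ a) (Function.injective_id.injOn) ha
  have h3 := kills_replica hX σ hQ hφ
  have h4 : X' = Polynomial.aeval X (Lagrange.interpolate t id fun a => σ a) := by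
    refine b.ext fun k => ?_
    rw [h2, hp, hQ _ (ht k)]
  rw [h4]
  exact h3

theorem RepX.cmp_NA {σ : ℂ →+ ℂ} {X X' : EndC A} (h : RepX σ X X')
    (hX : ∀ lam, Pool.Agent.W516.DR.cmpE lam X ∈ A.NA) (lam : ℂ →ₗ[ℚ] ℚ) :
    Pool.Agent.W516.DR.cmpE lam X' ∈ A.NA := by
  intro m φ h1 h2
  refine (kills_bcm_iff A.bas φ X').1 (h.kills ?_) lam
  rw [kills_bcm_iff]
  exact fun mu => hX mu m φ h1 h2

variable (A d) in
/-- The elements which act on the homology of the abelian variety by elements of the Lie algebra. -/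
def NN : Submodule ℚ (Elt d A) where
  carrier := {e | e.2.1 ∈ A.NA}
  zero_mem' := A.NA.zero_mem
  add_mem' := fun ha hb => A.NA.add_mem ha hb
  smul_mem' := fun c _ ha => A.NA.smul_mem c ha

theorem X0_NA (D : Derivation QBar ℂ ℂ) (lam : ℂ →ₗ[ℚ] ℚ) :
    Pool.Agent.W516.DR.X0 A.basis tau D lam ∈ A.NA := A.LA_le_NA (by
      rw [AbVar.LA_eq]
      exact X0_mem A.basis AbVar.tau_ne D lam)

theorem NN_closed : Closed V (NN d A) where
  br := fun _ ha _ hb => A.NA_bracket hb ha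
  gen := fun D lam => X0_NA D lam
  rep := fun _ _ _ _ _ _ _ hX h lam => hX.cmp_NA (fun mu => h mu) lam

theorem LL_NA {e : Elt d A} (he : e ∈ LL A V) : e.2.1 ∈ A.NA := LL_le V (NN_closed V) he

end NA

section Flag

variable {U : Submodule ℚ (Fin d → ℚ)}

/-- The elements which preserve the subspace. -/
def FF (A : AbVar g) (U : Submodule ℚ (Fin d → ℚ)) : Submodule ℚ (Elt d A) where
  carrier := {e | ∀ u ∈ U, ρ e.1 u ∈ U}
  zero_mem' := fun u hu => by
    change ρ 0 u ∈ U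
    rw [map_zero]
    exact U.zero_mem
  add_mem' := fun {a b} ha hb u hu => by
    change ρ (a.1 + b.1) u ∈ U
    rw [map_add]
    exact U.add_mem (ha u hu) (hb u hu)
  smul_mem' := fun c a ha u hu => by
    change ρ (c • a.1) u ∈ U
    rw [map_smul]
    exact U.smul_mem c (ha u hu)

/-- The complex span. -/
def sp (U : Submodule ℚ (Fin d → ℚ)) : Submodule ℂ (Fin d → ℂ) :=
  Submodule.span ℂ {v : Fin d → ℂ | ∃ k ∈ U, v = fun i => (k i : ℂ)}

theorem mem_sp {c : Fin d → ℂ} : c ∈ sp U ↔ ∀ lam : ℂ →ₗ[ℚ] ℚ, (fun i => lam (c i)) ∈ U := by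
  constructor
  · intro h
    have key : ∀ lam : ℂ →ₗ[ℚ] ℚ, (fun i => lam (c i)) ∈ U := by
      induction h using Submodule.span_induction with
      | mem x hx =>
        obtain ⟨k, hk, rfl⟩ := hx
        intro lam
        have h1 : (fun i => lam ((k i : ℚ) : ℂ)) = lam 1 • k := by
          funext i
          have h2 : ((k i : ℚ) : ℂ) = k i • (1 : ℂ) := by rw [← cast_qsmul, mul_one]
          rw [h2, map_smul, Pi.smul_apply, smul_eq_mul, smul_eq_mul, mul_comm]
        rw [h1]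
        exact U.smul_mem _ hk
      | zero =>
        intro lam
        have h1 : (fun i => lam ((0 : Fin d → ℂ) i)) = 0 := by
          funext i
          rw [Pi.zero_apply, map_zero]
          rfl
        rw [h1]
        exact U.zero_mem
      | add x y _ _ hx hy =>
        intro lam
        have h1 : (fun i => lam ((x + y) i)) = (fun i => lam (x i)) + fun i => lam (y i) := by
          funext i
          rw [Pi.add_apply, map_add]
          rfl
        rw [h1]
        exact U.add_mem (hx lam) (hy lam)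
      | smul a x _ hx =>
        intro lam
        exact hx (lam ∘ₗ LinearMap.mulLeft ℚ a)
    exact key
  · intro h
    refine mem_span_of_rel U fun q hq => ?_
    rw [← Module.forall_dual_apply_eq_zero_iff ℚ]
    intro lam
    rw [map_sum, ← hq _ (h lam)]
    exact Finset.sum_congr rfl fun i _ => by rw [cast_qsmul, map_smul, smul_eq_mul]

/-- The endomorphism of the complex space. -/
def tl (Z : Matrix (Fin d) (Fin d) ℂ) : Module.End ℂ (Fin d → ℂ) := Matrix.toLin' Zᵀ

theorem tl_apply (Z : Matrix (Fin d) (Fin d) ℂ) (v : Fin d → ℂ) : tl Z v = Zᵀ *ᵥ v :=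
  Matrix.toLin'_apply _ _

theorem tl_mul (Z Z' : Matrix (Fin d) (Fin d) ℂ) : tl (Z * Z') = tl Z' * tl Z := by
  change Matrix.toLin' (Z * Z')ᵀ = Matrix.toLin' Z'ᵀ * Matrix.toLin' Zᵀ
  rw [Matrix.transpose_mul, Matrix.toLin'_mul]
  rfl

theorem tl_add (Z Z' : Matrix (Fin d) (Fin d) ℂ) : tl (Z + Z') = tl Z + tl Z' := by
  unfold tl
  rw [Matrix.transpose_add, map_add]

theorem tl_smul (a : ℂ) (Z : Matrix (Fin d) (Fin d) ℂ) : tl (a • Z) = a • tl Z := by
  unfold tl
  rw [Matrix.transpose_smul, map_smul]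

theorem tl_one : tl (1 : Matrix (Fin d) (Fin d) ℂ) = 1 := by
  unfold tl
  rw [Matrix.transpose_one, Matrix.toLin'_one]
  rfl

theorem tl_zero : tl (0 : Matrix (Fin d) (Fin d) ℂ) = 0 := by
  unfold tl
  rw [Matrix.transpose_zero, map_zero]

theorem tl_inj {Z Z' : Matrix (Fin d) (Fin d) ℂ} (h : tl Z = tl Z') : Z = Z' :=
  Matrix.transpose_injective (Matrix.toLin'.injective h)

theorem tl_pow (Z : Matrix (Fin d) (Fin d) ℂ) (n : ℕ) : tl (Z ^ n) = tl Z ^ n := by
  induction n with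
  | zero => rw [pow_zero, pow_zero, tl_one]
  | succ n ih => rw [pow_succ', tl_mul, ih, ← pow_succ]

theorem tl_sum {ι : Type} (t : Finset ι) (Z : ι → Matrix (Fin d) (Fin d) ℂ) :
    tl (∑ i ∈ t, Z i) = ∑ i ∈ t, tl (Z i) := by
  classical
  induction t using Finset.induction_on with
  | empty => rw [Finset.sum_empty, Finset.sum_empty, tl_zero]
  | insert a t ha ih => rw [Finset.sum_insert ha, Finset.sum_insert ha, tl_add, ih]

theorem tl_comp (lam : ℂ →ₗ[ℚ] ℚ) (Z : Matrix (Fin d) (Fin d) ℂ) (u : Fin d → ℚ) :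
    (fun i => lam (tl Z (fun j => (u j : ℂ)) i)) = ρ (mp lam Z) u := by
  funext i
  rw [tl_apply]
  change lam (∑ j, Zᵀ i j * (u j : ℂ)) = ((mp lam Z)ᵀ *ᵥ u) i
  rw [map_sum]
  refine Finset.sum_congr rfl fun j _ => ?_
  rw [mul_comm, cast_qsmul, map_smul, smul_eq_mul, mul_comm]
  rfl

/-- The elements of the complexification preserve the complex span. -/
theorem tl_stable {Z : Matrix (Fin d) (Fin d) ℂ}
    (h : ∀ lam : ℂ →ₗ[ℚ] ℚ, ∀ u ∈ U, ρ (mp lam Z) u ∈ U) : ∀ v ∈ sp U, tl Z v ∈ sp U := by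
  intro v hv
  unfold sp at hv
  induction hv using Submodule.span_induction with
  | mem x hx =>
    obtain ⟨k, hk, rfl⟩ := hx
    rw [mem_sp]
    intro lam
    rw [tl_comp]
    exact h lam k hk
  | zero => rw [map_zero]; exact (sp U).zero_mem
  | add x y _ _ hx hy => rw [map_add]; exact (sp U).add_mem hx hy
  | smul a x _ hx => rw [map_smul]; exact (sp U).smul_mem a hx

theorem stable_tl {Z : Matrix (Fin d) (Fin d) ℂ} (h : ∀ v ∈ sp U, tl Z v ∈ sp U)
    (lam : ℂ →ₗ[ℚ] ℚ) : ∀ u ∈ U, ρ (mp lam Z) u ∈ U := by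
  intro u hu
  rw [← tl_comp]
  exact mem_sp.1 (h _ (Submodule.subset_span ⟨u, hu, rfl⟩)) lam

/-- The replicas preserve the stable subspaces. -/
theorem RepZ.stable {σ : ℂ →+ ℂ} {Z Z' : Matrix (Fin d) (Fin d) ℂ} (h : RepZ σ Z Z')
    {W : Submodule ℂ (Fin d → ℂ)} (hW : ∀ v ∈ W, tl Z v ∈ W) : ∀ v ∈ W, tl Z' v ∈ W := by
  classical
  obtain ⟨N, Zs, Zn, π, δ, rfl, hc, hn, h1, h2, h3⟩ := h
  let t : Finset ℂ := Finset.univ.image δ
  have ht : ∀ k, δ k ∈ t := fun k => Finset.mem_image_of_mem _ (Finset.mem_univ k)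
  have hs := nodal_of_proj (s := t) h1 h2 ht
  have hp : ∀ (p : Polynomial ℂ) (k : Fin N), Polynomial.aeval Zs p * π k = p.eval (δ k) • π k :=
    fun p k => Pool.Agent.R917.EC.aeval_mul_eig (h2 k) p
  have hQ : ∀ a ∈ t, (Lagrange.interpolate t id fun a => σ a).eval a = σ a := fun a ha =>
    Lagrange.eval_interpolate_at_node (fun a => σ a) (Function.injective_id.injOn) ha
  have h4 : Z' = Polynomial.aeval Zs (Lagrange.interpolate t id fun a => σ a) := by
    rw [← mul_one Z', ← mul_one (Polynomial.aeval Zs _), ← h1, Finset.mul_sum, Finset.mul_sum]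
    refine Finset.sum_congr rfl fun k _ => ?_
    rw [h3, hp, hQ _ (ht k)]
  have htl : ∀ p : Polynomial ℂ, tl (Polynomial.aeval Zs p) = Polynomial.aeval (tl Zs) p := by
    intro p
    induction p using Polynomial.induction_on' with
    | add p q hp hq => rw [map_add, map_add, tl_add, hp, hq]
    | monomial n a =>
      rw [Polynomial.aeval_monomial, Polynomial.aeval_monomial,
        Algebra.algebraMap_eq_smul_one, Algebra.algebraMap_eq_smul_one, smul_mul_assoc,
        smul_mul_assoc, one_mul, one_mul, tl_smul, tl_pow]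
  have h5 : ∀ v ∈ W, tl Zs v ∈ W := by
    refine stable_ss (n := tl Zn) (s := tl Zs) ?_ ?_ ?_ ?_
    · obtain ⟨m, hm⟩ := hn
      exact ⟨m, by rw [← tl_pow, hm, tl_zero]⟩
    · refine Module.End.isSemisimple_of_squarefree_aeval_eq_zero (nodal_sqf t) ?_
      rw [← htl, hs, tl_zero]
    · change tl Zn * tl Zs = tl Zs * tl Zn
      rw [← tl_mul, ← tl_mul, hc.eq]
    · intro v hv
      rw [← tl_add, add_comm]
      exact hW v hv
  rw [h4, htl]
  generalize (Lagrange.interpolate t id fun a => σ a) = p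
  induction p using Polynomial.induction_on' with
  | add p q hp hq =>
    intro v hv
    rw [map_add, LinearMap.add_apply]
    exact W.add_mem (hp v hv) (hq v hv)
  | monomial n a =>
    intro v hv
    rw [Polynomial.aeval_monomial, Module.End.mul_apply, Module.algebraMap_end_apply]
    refine W.smul_mem a ?_
    induction n with
    | zero => exact hv
    | succ n ih =>
      rw [pow_succ', Module.End.mul_apply]
      exact h5 _ ih

theorem FF_closed (hU : V.IsSub U) : Closed V (FF A U) where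
  br := fun a ha b hb u hu => by
    change ρ (a.1 * b.1 - b.1 * a.1) u ∈ U
    rw [map_sub, ρ_mul, ρ_mul]
    exact U.sub_mem (hb _ (ha u hu)) (ha _ (hb u hu))
  gen := fun D lam u hu => by
    change ρ (mp lam (XV V D)) u ∈ U
    rw [← LK.X0_eq]
    have hs : IsDeRhamBettiSubspace QBar (ηV V : Fin d → ((Fin d → ℚ) →ₗ[ℚ] ℂ)) U := by
      rw [show (ηV V : Fin d → ((Fin d → ℚ) →ₗ[ℚ] ℂ)) = V.dR from funext (coe_ηV V)]
      exact hU
    exact stable_of_sub (ηV V) (τ := 1) U hs D lam hu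
  rep := fun _ _ _ _ _ _ hZ _ h lam => stable_tl (hZ.stable (tl_stable fun mu => h mu)) lam

end Flag

end Pool.Agent.V8H93.CS

end
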