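import Pool.Agent.V8H93.CS.Bound
import Pool.Agent.N208.AM.MainA
import Pool.Agent.N208.AM.MainB

set_option autoImplicit false
set_option linter.unusedSectionVars false

/-!
# Hodge groups in the split part
-/

open Module Function TensorProduct Matrix

noncomputable section

namespace Pool.Agent.V8H93.CS

open Pool.Agent.Y102 Pool.Agent.W516.DR Pool.Agent.H204R3.GP Pool.Agent.W516.KC
  Pool.Agent.H204R3.SP Pool.Agent.TH119.MX Pool.Agent.R917 Pool.Agent.N208.AM
  Pool.Agent.N755.CT Pool.Agent.V8H93.LK Pool.Agent.R917.DT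

/-! ### Exponentials of block diagonal matrices -/

section norms

attribute [local instance] Matrix.linftyOpNormedRing Matrix.linftyOpNormedAlgebra

theorem hasSum_exp {n : Type} [Fintype n] [DecidableEq n] (M : Matrix n n ℂ) :
    HasSum (fun k : ℕ => ((k.factorial : ℂ)⁻¹) • M ^ k) (NormedSpace.exp M) :=
  NormedSpace.exp_series_hasSum_exp' (𝕂 := ℂ) M

end norms

theorem exp_blk {d n : ℕ} (Z : Matrix (Fin d) (Fin d) ℂ) (M : Matrix (Fin n) (Fin n) ℂ) :
    NormedSpace.exp (blk Z M) = blk (NormedSpace.exp Z) (NormedSpace.exp M) := by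
  have h1 := (hasSum_exp Z).prodMk (hasSum_exp M)
  let f : (Matrix (Fin d) (Fin d) ℂ × Matrix (Fin n) (Fin n) ℂ) →+
    Matrix (Fin d ⊕ Fin n) (Fin d ⊕ Fin n) ℂ :=
    { toFun := fun p => blk p.1 p.2
      map_zero' := blk_zero
      map_add' := fun p q => blk_add _ _ _ _ }
  have hc : Continuous f := by
    have h1 : Continuous fun p : Matrix (Fin d) (Fin d) ℂ × Matrix (Fin n) (Fin n) ℂ =>
        blk p.1 p.2 := by
      unfold blk
      fun_prop
    exact h1
  have h2 := h1.map f hc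
  have h3 := hasSum_exp (blk Z M)
  have h4 : (fun k : ℕ => ((k.factorial : ℂ)⁻¹) • blk Z M ^ k) =
      f ∘ fun x : ℕ => (((x.factorial : ℂ)⁻¹) • Z ^ x, ((x.factorial : ℂ)⁻¹) • M ^ x) := by
    funext k
    change _ = blk (((k.factorial : ℂ)⁻¹) • Z ^ k) (((k.factorial : ℂ)⁻¹) • M ^ k)
    rw [blk_smul, blk_pow]
  rw [h4] at h3
  exact h3.unique h2

variable {g d : ℕ} {A : AbVar g} {V : Structure d}
  {s n : ℕ} {r : Fin s → ℕ} {B : Fin n → Ten A r} {w : Fin s → ℤ}
  {P : Matrix (Fin n) (Fin n) ℂ} {Wt : Matrix (Fin n) (Fin n) ℚ}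
  {H : Set (Matrix (Fin d ⊕ Fin n) (Fin d ⊕ Fin n) ℂ)}

/-- The one-parameter groups of the elements which act trivially on the structure. -/
theorem exp_KK (h : Mot w B P) (hW : WRel w B Wt) (hH : PtV V P H) {X : Module.End ℚ A.H1}
    (hX : X ∈ KK A V) {M : Matrix (Fin n) (Fin n) ℚ} (hM : Rel B X M) (t : ℂ) :
    blk 1 (NormedSpace.exp (t • cq M)) ∈ H := by
  have h1 := exp_mem hH.grp fun k => (stab_K h hW hH hX hM k).smul t
  rwa [← blk_smul, smul_zero, exp_blk, NormedSpace.exp_zero] at h1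

/-! ### The complex structure -/

variable (A) in
/-- The complex structure on the complex homology. -/
def JC : EndC A := ∑ i : Fin (2 * g), ∑ j : Fin (2 * g),
  ((A.lam.repr (Complex.I • A.lam i) j : ℝ) : ℂ) •
    ((LinearMap.toSpanSingleton ℂ (ℂ ⊗[ℚ] A.H1) (A.bas.baseChange ℂ j)).comp
      ((A.bas.baseChange ℂ).coord i))

theorem JC_bas (i : Fin (2 * g)) : JC A (A.bas.baseChange ℂ i) =
    ∑ j, ((A.lam.repr (Complex.I • A.lam i) j : ℝ) : ℂ) • A.bas.baseChange ℂ j := by
  unfold JC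
  rw [LinearMap.sum_apply, Finset.sum_eq_single i]
  · rw [LinearMap.sum_apply]
    refine Finset.sum_congr rfl fun j _ => ?_
    rw [LinearMap.smul_apply, LinearMap.comp_apply, Basis.coord_apply, Basis.repr_self,
      Finsupp.single_eq_same, LinearMap.toSpanSingleton_apply, one_smul]
  · intro b _ hb
    rw [LinearMap.sum_apply]
    refine Finset.sum_eq_zero fun j _ => ?_
    rw [LinearMap.smul_apply, LinearMap.comp_apply, Basis.coord_apply, Basis.repr_self,
      Finsupp.single_eq_of_ne hb, map_zero, smul_zero]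
  · intro h
    exact absurd (Finset.mem_univ _) h

theorem JC_sq : JC A * JC A = -1 := by
  refine (A.bas.baseChange ℂ).ext fun i => ?_
  rw [Module.End.mul_apply, JC_bas, map_sum, LinearMap.neg_apply, Module.End.one_apply]
  have h1 : ∀ k, ∑ j, A.lam.repr (Complex.I • A.lam i) j * A.lam.repr (Complex.I • A.lam j) k =
      -(if i = k then 1 else 0) := by
    intro k
    have h2 : Complex.I • A.lam i = ∑ j, A.lam.repr (Complex.I • A.lam i) j • A.lam j :=
      (A.lam.sum_repr _).symm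
    have h3 : Complex.I • (Complex.I • A.lam i) = -A.lam i := by
      rw [smul_smul, Complex.I_mul_I, neg_smul, one_smul]
    have h4 := congrArg (fun u => A.lam.repr (Complex.I • u) k) h2
    beta_reduce at h4
    rw [h3, Finset.smul_sum, map_sum, Finsupp.finsetSum_apply, map_neg, Finsupp.neg_apply,
      Basis.repr_self, Finsupp.single_apply] at h4
    rw [h4]
    refine Finset.sum_congr rfl fun j _ => ?_
    have h5 : Complex.I • A.lam.repr (Complex.I • A.lam i) j • A.lam j =
        A.lam.repr (Complex.I • A.lam i) j • (Complex.I • A.lam j) := smul_comm _ _ _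
    rw [h5, LinearEquiv.map_smul A.lam.repr, Finsupp.smul_apply, smul_eq_mul]
  simp only [map_smul, JC_bas, Finset.smul_sum, smul_smul]
  rw [Finset.sum_comm]
  simp only [← Finset.sum_smul]
  have h5 : ∀ k, (∑ j, ((A.lam.repr (Complex.I • A.lam i) j : ℝ) : ℂ) *
      ((A.lam.repr (Complex.I • A.lam j) k : ℝ) : ℂ)) = -(if i = k then 1 else 0) := by
    intro k
    have h6 := congrArg (fun x : ℝ => (x : ℂ)) (h1 k)
    beta_reduce at h6
    rw [Complex.ofReal_sum, Complex.ofReal_neg] at h6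
    simp only [Complex.ofReal_mul] at h6
    rw [h6]
    split_ifs <;> simp
  rw [Finset.sum_congr rfl fun k _ => by rw [h5 k], Finset.sum_eq_single i]
  · rw [if_pos rfl, neg_smul, one_smul]
  · intro b _ hb
    rw [if_neg (fun h => hb h.symm), neg_zero, zero_smul]
  · intro h
    exact absurd (Finset.mem_univ _) h

/-- The complex structure is a real combination of rational elements of the Lie algebra. -/
theorem JC_eq : ∃ (t : Finset (Basis.ofVectorSpaceIndex ℚ ℝ))
    (X : Basis.ofVectorSpaceIndex ℚ ℝ → Module.End ℚ A.H1),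
      (∀ k, X k = A.cmpE ((Basis.ofVectorSpace ℚ ℝ).coord k) AbVar.JJ) ∧
      (AbVar.JJ : (Fin g → ℂ) →ₗ[ℝ] (Fin g → ℂ)) =
        ∑ k ∈ t, (Basis.ofVectorSpace ℚ ℝ k) • A.ext (X k) ∧
      JC A = ∑ k ∈ t, ((Basis.ofVectorSpace ℚ ℝ k : ℝ) : ℂ) • (X k).baseChange ℂ := by
  classical
  obtain ⟨t, ht⟩ := JJ_eq (A := A)
  refine ⟨t, fun k => A.cmpE ((Basis.ofVectorSpace ℚ ℝ).coord k) AbVar.JJ,
    fun k => rfl, ht, ?_⟩
  refine (A.bas.baseChange ℂ).ext fun i => ?_
  rw [JC_bas, LinearMap.sum_apply]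
  have h1 : ∀ j, A.lam.repr (Complex.I • A.lam i) j = ∑ k ∈ t, (Basis.ofVectorSpace ℚ ℝ k) *
      ((A.cmpE ((Basis.ofVectorSpace ℚ ℝ).coord k) AbVar.JJ (A.bas i) j : ℚ) : ℝ) := by
    intro j
    have h2 := congrArg (fun Y : (Fin g → ℂ) →ₗ[ℝ] (Fin g → ℂ) => A.lam.repr (Y (A.lam i)) j) ht
    beta_reduce at h2
    rw [AbVar.JJ_apply, LinearMap.sum_apply, map_sum, Finsupp.finsetSum_apply] at h2
    rw [h2]
    refine Finset.sum_congr rfl fun k _ => ?_
    rw [LinearMap.smul_apply, map_smul, Finsupp.smul_apply, smul_eq_mul, ← A.per_bas i,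
      A.ext_apply, A.repr_per]
  have h3 : ∀ X : Module.End ℚ A.H1, (X.baseChange ℂ) (A.bas.baseChange ℂ i) =
      ∑ j, ((X (A.bas i) j : ℚ) : ℂ) • A.bas.baseChange ℂ j := by
    intro X
    rw [Basis.baseChange_apply, LinearMap.baseChange_tmul]
    have h4 : X (A.bas i) = ∑ j, (X (A.bas i) j) • A.bas j := by
      have h5 := (A.bas.sum_repr (X (A.bas i))).symm
      refine h5.trans (Finset.sum_congr rfl fun j _ => ?_)
      rfl
    conv_lhs => rw [h4]
    rw [tmul_sum]
    refine Finset.sum_congr rfl fun j _ => ?_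
    rw [Basis.baseChange_apply, tmul_smul, Rat.cast_smul_eq_qsmul]
  have h4 : ∀ j, ((A.lam.repr (Complex.I • A.lam i) j : ℝ) : ℂ) =
      ∑ k ∈ t, ((Basis.ofVectorSpace ℚ ℝ k : ℝ) : ℂ) *
      ((A.cmpE ((Basis.ofVectorSpace ℚ ℝ).coord k) AbVar.JJ (A.bas i) j : ℚ) : ℂ) := by
    intro j
    rw [h1]
    push_cast
    rfl
  simp only [h4, Finset.sum_smul]
  rw [Finset.sum_comm]
  refine Finset.sum_congr rfl fun k _ => ?_
  rw [LinearMap.smul_apply, h3, Finset.smul_sum]
  exact Finset.sum_congr rfl fun j _ => by rw [smul_smul]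

/-- The matrix of the complex structure on a motive. -/
theorem JC_rel (h : Mot w B P) {N : Matrix (Fin n) (Fin n) ℝ} (hN : RelR B AbVar.JJ N) :
    RelC B (JC A) (cxm N) := by
  classical
  obtain ⟨t, X, hX', hJ, hJC⟩ := JC_eq (A := A)
  have hX : ∀ k, X k ∈ A.NA := fun k => by
    rw [hX' k]
    exact A.MA_le_NA (A.J_mem _)
  choose M hM using fun k => h.st _ (hX k)
  have h1 : RelR B AbVar.JJ (∑ k ∈ t, (Basis.ofVectorSpace ℚ ℝ k) •
      (M k).map fun q => (q : ℝ)) := by
    rw [hJ]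
    exact RelR.sum t fun k _ => (hM k).real.smul _
  have h2 := hN.uniq h.li h1
  have h3 : cxm N = ∑ k ∈ t, ((Basis.ofVectorSpace ℚ ℝ k : ℝ) : ℂ) • cq (M k) := by
    rw [h2]
    ext i j
    unfold cxm
    rw [Matrix.map_apply, Matrix.sum_apply, Matrix.sum_apply]
    push_cast
    refine Finset.sum_congr rfl fun k _ => ?_
    simp [cq]
  rw [h3, hJC]
  clear hJ hJC h1 h2 h3
  induction t using Finset.induction_on with
  | empty =>
    rw [Finset.sum_empty, Finset.sum_empty]
    exact RelC.zero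
  | insert a t ha ih =>
    rw [Finset.sum_insert ha, Finset.sum_insert ha]
    exact ((relC_of_rel (hM a)).smul _).add ih

/-- **Hodge groups.** If the complex structure is in the split part, then the group contains the
elements given by the complex numbers of absolute value one. -/
theorem hodge_split (h : Mot w B P) (hW : WRel w B Wt) (hH : PtV V P H)
    (hJ : InC (LL A V) 0 (JC A) 0) {N : Matrix (Fin n) (Fin n) ℝ} (hN : RelR B AbVar.JJ N)
    {z : ℂ} (hz : ‖z‖ = 1) : blk 1 (NormedSpace.exp (Pool.Agent.N208.AM.KK Wt N z)) ∈ H ∧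
      HRel w B z (NormedSpace.exp (Pool.Agent.N208.AM.KK Wt N z)) := by
  have hz0 : z ≠ 0 := fun h0 => by
    rw [h0, norm_zero] at hz
    exact zero_ne_one hz
  refine ⟨?_, hrel_exp hW hN hz0⟩
  obtain ⟨N', hN', h1⟩ := inC_GG (fun lam => LL_le V (GG_closed h hW hH) (hJ lam))
  have h2 : N' = cxm N := hN'.uniq h.li (JC_rel h hN)
  have h3 : Pool.Agent.N208.AM.KK Wt N z = (Complex.arg z : ℂ) • cxm N := by
    unfold Pool.Agent.N208.AM.KK
    rw [hz, Real.log_one, Complex.ofReal_zero, zero_smul, zero_add]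
  have h4 := exp_mem hH.grp fun k => (h1 k).smul (Complex.arg z : ℂ)
  rw [zero_smul, add_zero, h2, ← blk_smul, smul_zero, exp_blk, NormedSpace.exp_zero, ← h3] at h4
  exact h4

/-- The complex structure is in the split part if the Lie algebra is. -/
theorem JC_of_NA (h : A.NA ≤ KK A V) : InC (LL A V) 0 (JC A) 0 := by
  obtain ⟨t, X, hX', -, hJC⟩ := JC_eq (A := A)
  have hX : ∀ k, X k ∈ A.NA := fun k => by
    rw [hX' k]
    exact A.MA_le_NA (A.J_mem _)
  have h1 := inC_sum (𝔪 := LL A V) t (fun k => ((Basis.ofVectorSpace ℚ ℝ k : ℝ) : ℂ))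
    (fun k => ((0, X k, 0) : Elt d A)) fun k _ => h (hX k)
  rw [← hJC] at h1
  convert h1 using 1
  · refine (Finset.sum_eq_zero fun k _ => ?_).symm
    ext i j
    simp
  · exact (Finset.sum_eq_zero fun k _ => by rw [Rat.cast_zero, mul_zero]).symm

/-- The complex structure is in the split part if it is in the projection and the structure is an
iterated extension of structures of rank one. -/
theorem JC_of_halves (h : ∀ r, A.cmpE r AbVar.JJ ∈ PP A V) {F : ℕ → Submodule ℚ (Fin d → ℚ)} {ℓ : ℕ}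
    (h0 : F 0 = ⊥) (hℓ : F ℓ = ⊤) (hmono : ∀ i, F i ≤ F (i + 1)) (hF : ∀ i, V.IsSub (F i))
    (hh : halves F ℓ = 0) : InC (LL A V) 0 (JC A) 0 := by
  classical
  obtain ⟨t, X, hX, -, hJC⟩ := JC_eq (A := A)
  choose Z c hZ using fun k => (mem_PP V).1 (show X k ∈ PP A V by
    rw [hX k]
    exact h _)
  obtain ⟨U, hU, hmain⟩ := exists_real V h0 hℓ hmono hF
    (fun k : t => ((Z k, X k, c k) : Elt d A)) (fun k => hZ k)
    (fun k : t => Basis.ofVectorSpace ℚ ℝ k)
  have hU0 : U = ∅ := Finset.card_eq_zero.1 (Nat.le_zero.1 (hU.trans_eq hh))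
  let σ : ℂ →+ ℂ :=
    { toFun := fun z => (z.im : ℂ) * Complex.I
      map_zero' := by rw [Complex.zero_im, Complex.ofReal_zero, zero_mul]
      map_add' := fun z z' => by rw [Complex.add_im, Complex.ofReal_add, add_mul] }
  have hσ : ∀ z, σ z = (z.im : ℂ) * Complex.I := fun _ => rfl
  have hsq : Polynomial.aeval (JC A) (Lagrange.nodal ({Complex.I, -Complex.I} : Finset ℂ) id) = 0 := by
    have h1 : (Lagrange.nodal ({Complex.I, -Complex.I} : Finset ℂ) id : Polynomial ℂ) =
        Polynomial.X ^ 2 + 1 := by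
      unfold Lagrange.nodal
      rw [Finset.prod_pair (by
        intro h2
        have h3 := congrArg Complex.im h2
        norm_num at h3)]
      simp only [id, map_neg, sub_neg_eq_add]
      have h3 : (Polynomial.C Complex.I : Polynomial ℂ) * Polynomial.C Complex.I = -1 := by
        rw [← map_mul, Complex.I_mul_I, map_neg, map_one]
      linear_combination (-1 : Polynomial ℂ) * h3
    rw [h1, map_add, map_pow, Polynomial.aeval_X, map_one, pow_two, JC_sq, neg_add_cancel]
  obtain ⟨m, b, x, hx1, hx⟩ := exists_eigenbasis hsq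
  refine hmain σ (fun x => ?_) (fun a ha => ?_) (fun z => ?_) (JC A) ⟨m, b, x, fun k => ?_, fun k => ?_⟩
  · rw [hσ, Complex.ofReal_im, Complex.ofReal_zero, zero_mul]
  · rw [hU0] at ha
    exact absurd ha (Finset.notMem_empty a)
  · rw [hσ, hσ]
    simp
  · rw [← hx, hJC, ← Finset.sum_coe_sort t]
  · rw [hx, hσ]
    congr 1
    rcases Finset.mem_insert.1 (hx1 k) with h2 | h2
    · rw [h2]
      simp
    · rw [Finset.mem_singleton.1 h2]
      simp

/-- Replicas of the elements of the split part. -/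
theorem KK_RC (V : Structure d) : RC (KK A V) := by
  intro X hX s hs σ Q hQ lam X' hX'
  rw [cmpE_aeval hX']
  have hT : Polynomial.aeval (X.baseChange ℂ : Module.End ℂ (ℂ ⊗[ℚ] A.H1))
      (Lagrange.nodal s id) = 0 := by
    apply (LinearMap.toMatrixAlgEquiv (A.bas.baseChange ℂ)).injective
    rw [← Polynomial.aeval_algHom_apply, Pool.Agent.R917.DT.toMatrix_bc, map_zero]
    rw [rm_eq, aeval_transpose] at hs
    exact Matrix.transpose_eq_zero.1 hs
  obtain ⟨m, b, x, hx1, hx⟩ := exists_eigenbasis hT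
  obtain ⟨Zs, Zn, h1, h2, h3, Λ, h4, h6⟩ := exists_jc (0 : Matrix (Fin d) (Fin d) ℂ)
  obtain ⟨Z', hZ', hZ0⟩ := exists_RepZ h1 h2 h3 h4 σ
  have h7 : Z' = 0 := by
    refine hZ0 fun a ha => ?_
    have h8 := h6 a ha Polynomial.X (by rw [Polynomial.aeval_X])
    rw [Polynomial.eval_X] at h8
    rw [h8, map_zero]
  have h5 : RepX σ (X.baseChange ℂ) (Polynomial.aeval (X.baseChange ℂ : EndC A) Q) := by
    refine ⟨m, b, x, hx, fun k => ?_⟩
    have h6 : Module.End.HasEigenvector (X.baseChange ℂ : EndC A) (x k) (b k) :=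
      Module.End.hasEigenvector_iff.2 ⟨Module.End.mem_eigenspace_iff.2 (hx k), b.ne_zero k⟩
    rw [Module.End.aeval_apply_of_hasEigenvector h6, hQ _ (hx1 k)]
  have h8 : InC (LL A V) (0 : Matrix (Fin d) (Fin d) ℂ) (X.baseChange ℂ) 0 := by
    have h9 := inC_rat ((mem_KK V).1 hX)
    convert h9 using 1
    · ext i j
      simp
    · rw [Rat.cast_zero]
  have h9 := (LL_closed V).rep σ _ _ _ _ _ hZ' h5 h8 lam
  rw [h7, map_zero] at h9
  have h10 : cpt lam (0 : Matrix (Fin d) (Fin d) ℂ)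
      (Polynomial.aeval (X.baseChange ℂ : EndC A) Q) 0 =
      ((0, Pool.Agent.W516.DR.cmpE lam (Polynomial.aeval (X.baseChange ℂ : EndC A) Q), 0) :
        Elt d A) := by
    unfold cpt
    rw [map_zero]
    refine Prod.ext ?_ rfl
    ext i j
    exact map_zero lam
  rw [h10] at h9
  exact h9

end Pool.Agent.V8H93.CS

end
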