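import Pool.Agent.V8H93.CS.Grp

set_option autoImplicit false
set_option linter.unusedSectionVars false

/-!
# The projection of the closed Lie algebra to the Lie algebra of the abelian variety
-/

open Module Function TensorProduct Matrix

noncomputable section

namespace Pool.Agent.V8H93.CS

open Pool.Agent.Y102 Pool.Agent.W516.DR Pool.Agent.H204R3.GP Pool.Agent.W516.KC
  Pool.Agent.H204R3.SP Pool.Agent.TH119.MX Pool.Agent.R917 Pool.Agent.N208.AM
  Pool.Agent.N755.CT Pool.Agent.V8H93.LK Pool.Agent.R917.DT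

/-! ### Linear algebra -/

/-- A basis of eigenvectors. -/
theorem exists_eigenbasis {W : Type} [AddCommGroup W] [Module ℂ W] [FiniteDimensional ℂ W]
    {X : Module.End ℂ W} {s : Finset ℂ} (h : Polynomial.aeval X (Lagrange.nodal s id) = 0) :
    ∃ (m : ℕ) (b : Basis (Fin m) ℂ W) (x : Fin m → ℂ), (∀ k, x k ∈ s) ∧
      ∀ k, X (b k) = x k • b k := by
  classical
  let S : Set W := {v | ∃ a ∈ s, X v = a • v}
  have hS : ⊤ ≤ Submodule.span ℂ S := by
    intro v _
    rcases s.eq_empty_or_nonempty with hs | hs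
    · rw [hs, Lagrange.nodal_empty, map_one] at h
      have h1 : v = 0 := by
        have h2 := congrArg (fun f : Module.End ℂ W => f v) h
        exact h2
      rw [h1]
      exact Submodule.zero_mem _
    · have h1 : v = ∑ a ∈ s, Polynomial.aeval X (Lagrange.basis s id a) v := by
        rw [← LinearMap.sum_apply, ← map_sum, Lagrange.sum_basis Function.injective_id.injOn hs,
          map_one, Module.End.one_apply]
      rw [h1]
      refine Submodule.sum_mem _ fun a ha => Submodule.subset_span ⟨a, ha, ?_⟩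
      exact congrArg (fun f : Module.End ℂ W => f v) (lagrange_eig' h ha)
  let b0 := Basis.ofSpan hS
  have hb0 : ∀ i, b0 i ∈ S := fun i => Basis.ofSpan_subset hS ⟨i, rfl⟩
  have hfin : Finite ↑((linearIndepOn_empty ℂ id).extend (Set.empty_subset S)) :=
    Module.Finite.finite_basis b0
  have hft := Fintype.ofFinite ↑((linearIndepOn_empty ℂ id).extend (Set.empty_subset S))
  choose x hx hx' using hb0
  refine ⟨_, b0.reindex (Fintype.equivFin _), fun k => x ((Fintype.equivFin _).symm k),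
    fun k => hx _, fun k => ?_⟩
  rw [Basis.reindex_apply]
  exact hx' _

/-- The Jordan decomposition of a matrix. -/
theorem exists_jc {d : ℕ} (Z : Matrix (Fin d) (Fin d) ℂ) : ∃ Zs Zn : Matrix (Fin d) (Fin d) ℂ,
    Z = Zs + Zn ∧ Commute Zs Zn ∧ IsNilpotent Zn ∧ ∃ Λ : Finset ℂ,
      Polynomial.aeval Zs (Lagrange.nodal Λ id) = 0 ∧
        ∀ a ∈ Λ, ∀ p : Polynomial ℂ, Polynomial.aeval Z p = 0 → p.eval a = 0 := by
  classical
  let e : Matrix (Fin d) (Fin d) ℂ ≃ₐ[ℂ] Module.End ℂ (Fin d → ℂ) := Matrix.toLinAlgEquiv'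
  obtain ⟨n, hn, s, hs, hn1, hs1, h1⟩ := (e Z).exists_isNilpotent_isSemisimple
  have hc : Commute s n := by
    have h4 : Commute (e Z) s :=
      Algebra.commute_of_mem_adjoin_singleton_of_commute hs (Commute.refl (e Z))
    exact Algebra.commute_of_mem_adjoin_singleton_of_commute hn h4.symm
  have hc' : Commute (e.symm s) (e.symm n) := hc.map e.symm
  have hZ : Z = e.symm s + e.symm n := by
    apply e.injective
    rw [map_add, AlgEquiv.apply_symm_apply, AlgEquiv.apply_symm_apply, h1, add_comm]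
  have hnil : IsNilpotent (e.symm n) := hn1.map e.symm
  refine ⟨e.symm s, e.symm n, hZ, hc', hnil, (minpoly ℂ s).roots.toFinset, ?_,
    fun a ha p hp => ?_⟩
  · have h2 : (Lagrange.nodal (minpoly ℂ s).roots.toFinset id : Polynomial ℂ) = minpoly ℂ s := by
      have hm : (minpoly ℂ s).Monic := minpoly.monic (Algebra.IsIntegral.isIntegral s)
      have h3 := (IsAlgClosed.splits (minpoly ℂ s)).eq_prod_roots_of_monic hm
      have h4 : (minpoly ℂ s).roots.Nodup :=
        Polynomial.nodup_roots (PerfectField.separable_iff_squarefree.2 hs1.minpoly_squarefree)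
      conv_rhs => rw [h3]
      unfold Lagrange.nodal
      rw [Finset.prod, Multiset.toFinset_val, Multiset.dedup_eq_self.2 h4]
      rfl
    rw [h2]
    apply e.injective
    rw [map_zero, ← Polynomial.aeval_algHom_apply e, AlgEquiv.apply_symm_apply, minpoly.aeval]
  · have h2 : (minpoly ℂ s).IsRoot a :=
      (Polynomial.mem_roots (minpoly.ne_zero (Algebra.IsIntegral.isIntegral s))).1
        (Multiset.mem_toFinset.1 ha)
    have h3 : s.HasEigenvalue a := Module.End.hasEigenvalue_of_isRoot h2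
    obtain ⟨v, hv⟩ := h3.exists_hasEigenvector
    have hv1 : s v = a • v := hv.apply_eq_smul
    have hv0 : v ≠ 0 := hv.2
    -- a common eigenvector
    have hex : ∃ k, (n ^ k) v = 0 := by
      obtain ⟨k, hk⟩ := hn1
      exact ⟨k, by rw [hk, LinearMap.zero_apply]⟩
    obtain ⟨k, hk, hk'⟩ : ∃ k, (n ^ k) v ≠ 0 ∧ (n ^ (k + 1)) v = 0 := by
      have h4 := Nat.find_spec hex
      rcases hkk : Nat.find hex with _ | k
      · rw [hkk, pow_zero] at h4
        exact absurd h4 hv0
      · refine ⟨k, Nat.find_min hex (by omega), ?_⟩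
        rw [hkk] at h4
        exact h4
    have h4 : e Z ((n ^ k) v) = a • (n ^ k) v := by
      rw [h1, LinearMap.add_apply, ← Module.End.mul_apply, ← pow_succ', hk', zero_add,
        ← Module.End.mul_apply, (hc.pow_right k).eq, Module.End.mul_apply, hv1, map_smul]
    have h5 : (e Z).HasEigenvector a ((n ^ k) v) :=
      Module.End.hasEigenvector_iff.2 ⟨Module.End.mem_eigenspace_iff.2 h4, hk⟩
    have h6 := Module.End.aeval_apply_of_hasEigenvector (p := p) h5
    rw [Polynomial.aeval_algHom_apply e, hp, map_zero, LinearMap.zero_apply] at h6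
    exact (smul_eq_zero.1 h6.symm).resolve_right hk

/-- Replicas exist. -/
theorem exists_RepZ {d : ℕ} {Z Zs Zn : Matrix (Fin d) (Fin d) ℂ} (h : Z = Zs + Zn)
    (hc : Commute Zs Zn) (hn : IsNilpotent Zn) {Λ : Finset ℂ}
    (hΛ : Polynomial.aeval Zs (Lagrange.nodal Λ id) = 0) (σ : ℂ →+ ℂ) :
    ∃ Z', RepZ σ Z Z' ∧ ((∀ a ∈ Λ, σ a = 0) → Z' = 0) := by
  classical
  have hQ : ∀ a ∈ Λ, (Lagrange.interpolate Λ id fun a => σ a).eval a = σ a := fun a ha =>
    Lagrange.eval_interpolate_at_node (fun a => σ a) (Function.injective_id.injOn) ha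
  rcases Λ.eq_empty_or_nonempty with hs | hs
  · have h1 : (1 : Matrix (Fin d) (Fin d) ℂ) = 0 := by
      rw [hs, Lagrange.nodal_empty, map_one] at hΛ
      exact hΛ
    refine ⟨0, ⟨0, Zs, Zn, fun _ => 0, fun _ => 0, h, hc, hn, ?_, fun t => t.elim0,
      fun t => t.elim0⟩, fun _ => rfl⟩
    rw [h1]
    rfl
  · let π : Λ → Matrix (Fin d) (Fin d) ℂ := fun a => Polynomial.aeval Zs (Lagrange.basis Λ id (a : ℂ))
    have h1 : ∑ t, π t = 1 := by
      change ∑ a : Λ, Polynomial.aeval Zs (Lagrange.basis Λ id (a : ℂ)) = 1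
      rw [← map_sum, Finset.sum_coe_sort Λ (fun a => Lagrange.basis Λ id a),
        Lagrange.sum_basis Function.injective_id.injOn hs, map_one]
    have h2 : ∀ t, Zs * π t = (t : ℂ) • π t := fun t => lagrange_eig' hΛ t.2
    have h3 : ∀ t, Polynomial.aeval Zs (Lagrange.interpolate Λ id fun a => σ a) * π t =
        σ (t : ℂ) • π t := fun t => by
      rw [aeval_mul_eig' (h2 t), hQ _ t.2]
    refine ⟨Polynomial.aeval Zs (Lagrange.interpolate Λ id fun a => σ a),
      ⟨Fintype.card Λ, Zs, Zn, fun t => π ((Fintype.equivFin Λ).symm t),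
        fun t => (((Fintype.equivFin Λ).symm t : Λ) : ℂ), h, hc, hn, ?_, fun t => h2 _,
        fun t => h3 _⟩, fun h0 => ?_⟩
    · rw [← h1]
      exact (Fintype.equivFin Λ).symm.sum_comp π
    · rw [← mul_one (Polynomial.aeval Zs _), ← h1, Finset.mul_sum]
      refine Finset.sum_eq_zero fun t _ => ?_
      rw [h3, h0 _ t.2, zero_smul]

variable {g d : ℕ} {A : AbVar g} (V : Structure d)

/-! ### The projection -/

/-- The projection of the closed Lie algebra. -/
def PP (A : AbVar g) (V : Structure d) : Submodule ℚ (Module.End ℚ A.H1) :=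
  (LL A V).map ((LinearMap.fst ℚ _ _).comp (LinearMap.snd ℚ _ _))

theorem mem_PP {X : Module.End ℚ A.H1} : X ∈ PP A V ↔ ∃ Z c, ((Z, X, c) : Elt d A) ∈ LL A V := by
  constructor
  · rintro ⟨⟨Z, X', c⟩, h, rfl⟩
    exact ⟨Z, c, h⟩
  · rintro ⟨Z, c, h⟩
    exact ⟨_, h, rfl⟩

theorem PP_full : A.Full (PP A V) := by
  refine full_of_X0 A (fun X hX => ?_) (fun X hX Y hY => ?_) fun D lam => ?_
  · obtain ⟨Z, c, h⟩ := (mem_PP V).1 hX
    exact LL_NA V h
  · obtain ⟨Z, c, h⟩ := (mem_PP V).1 hX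
    obtain ⟨Z', c', h'⟩ := (mem_PP V).1 hY
    exact (mem_PP V).2 ⟨_, _, (LL_closed V).br _ h' _ h⟩
  · exact (mem_PP V).2 ⟨_, _, (LL_closed V).gen D lam⟩

/-- Rational elements are in the complexification. -/
theorem inC_rat {𝔪 : Submodule ℚ (Elt d A)} {Z : Matrix (Fin d) (Fin d) ℚ}
    {X : Module.End ℚ A.H1} {c : ℚ} (h : ((Z, X, c) : Elt d A) ∈ 𝔪) :
    InC 𝔪 (Z.map fun q => (q : ℂ)) (X.baseChange ℂ) (c : ℂ) := by
  have h1 := inC_sum (Finset.univ : Finset Unit) (fun _ => (1 : ℂ)) (fun _ => ((Z, X, c) : Elt d A))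
    (fun _ _ => h)
  simpa using h1

theorem PP_RC : RC (PP A V) := by
  intro X hX s hs σ Q hQ lam X' hX'
  obtain ⟨Z, c, h⟩ := (mem_PP V).1 hX
  rw [cmpE_aeval hX']
  have hT : Polynomial.aeval (X.baseChange ℂ : Module.End ℂ (ℂ ⊗[ℚ] A.H1))
      (Lagrange.nodal s id) = 0 := by
    apply (LinearMap.toMatrixAlgEquiv (A.bas.baseChange ℂ)).injective
    rw [← Polynomial.aeval_algHom_apply, Pool.Agent.R917.DT.toMatrix_bc, map_zero]
    rw [rm_eq, aeval_transpose] at hs
    exact Matrix.transpose_eq_zero.1 hs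
  obtain ⟨m, b, x, hx1, hx⟩ := exists_eigenbasis hT
  obtain ⟨Zs, Zn, h1, h2, h3, Λ, h4, -⟩ := exists_jc (Z.map fun q => (q : ℂ))
  obtain ⟨Z', hZ', -⟩ := exists_RepZ h1 h2 h3 h4 σ
  have h5 : RepX σ (X.baseChange ℂ) (Polynomial.aeval (X.baseChange ℂ : EndC A) Q) := by
    refine ⟨m, b, x, hx, fun k => ?_⟩
    have h6 : Module.End.HasEigenvector (X.baseChange ℂ : EndC A) (x k) (b k) :=
      Module.End.hasEigenvector_iff.2 ⟨Module.End.mem_eigenspace_iff.2 (hx k), b.ne_zero k⟩
    rw [Module.End.aeval_apply_of_hasEigenvector h6, hQ _ (hx1 k)]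
  exact (mem_PP V).2 ⟨_, _, (LL_closed V).rep σ _ _ _ _ _ hZ' h5 (inC_rat h) lam⟩

/-- If the abelian variety is determined, the projection is surjective. -/
theorem NA_le (h : Det A) : A.NA ≤ PP A V := h _ (PP_full V) (PP_RC V)

/-- If the centre is rigid, it is in the projection. -/
theorem CN_le (h : Pool.Agent.N208.CT.Rigid A) : A.CN ≤ PP A V :=
  Pool.Agent.N208.OU.CN_le (PP_full V) (PP_RC V) h

end Pool.Agent.V8H93.CS

end
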