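import Pool.Agent.V8H93.CS.Clo

set_option autoImplicit false
set_option linter.unusedSectionVars false

/-!
# The Lie algebra of a group which contains the periods of the sum of a structure and a motive
-/

open Module Function TensorProduct Matrix

noncomputable section

namespace Pool.Agent.V8H93.CS

open Pool.Agent.Y102 Pool.Agent.W516.DR Pool.Agent.H204R3.GP Pool.Agent.W516.KC
  Pool.Agent.H204R3.SP Pool.Agent.TH119.MX Pool.Agent.R917 Pool.Agent.N208.AM
  Pool.Agent.N755.CT Pool.Agent.V8H93.LK Pool.Agent.R917.DT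

section Blk

variable {d n : ℕ}

/-- Block diagonal matrices. -/
def blk (Z : Matrix (Fin d) (Fin d) ℂ) (M : Matrix (Fin n) (Fin n) ℂ) :
    Matrix (Fin d ⊕ Fin n) (Fin d ⊕ Fin n) ℂ := Matrix.fromBlocks Z 0 0 M

theorem blk_add (Z Z' : Matrix (Fin d) (Fin d) ℂ) (M M' : Matrix (Fin n) (Fin n) ℂ) :
    blk (Z + Z') (M + M') = blk Z M + blk Z' M' := by
  unfold blk
  rw [Matrix.fromBlocks_add, add_zero, add_zero]

theorem blk_smul (a : ℂ) (Z : Matrix (Fin d) (Fin d) ℂ) (M : Matrix (Fin n) (Fin n) ℂ) :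
    blk (a • Z) (a • M) = a • blk Z M := by
  unfold blk
  rw [Matrix.fromBlocks_smul, smul_zero, smul_zero]

theorem blk_mul (Z Z' : Matrix (Fin d) (Fin d) ℂ) (M M' : Matrix (Fin n) (Fin n) ℂ) :
    blk Z M * blk Z' M' = blk (Z * Z') (M * M') := by
  unfold blk
  rw [Matrix.fromBlocks_multiply]
  simp

theorem blk_zero : blk (0 : Matrix (Fin d) (Fin d) ℂ) (0 : Matrix (Fin n) (Fin n) ℂ) = 0 :=
  Matrix.fromBlocks_zero

theorem blk_one : blk (1 : Matrix (Fin d) (Fin d) ℂ) (1 : Matrix (Fin n) (Fin n) ℂ) = 1 :=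
  Matrix.fromBlocks_one

theorem blk_sub (Z Z' : Matrix (Fin d) (Fin d) ℂ) (M M' : Matrix (Fin n) (Fin n) ℂ) :
    blk (Z - Z') (M - M') = blk Z M - blk Z' M' := by
  have h := blk_add (Z - Z') Z' (M - M') M'
  rw [sub_add_cancel, sub_add_cancel] at h
  rw [h, add_sub_cancel_right]

theorem blk_sum {ι : Type} (t : Finset ι) (Z : ι → Matrix (Fin d) (Fin d) ℂ)
    (M : ι → Matrix (Fin n) (Fin n) ℂ) :
    blk (∑ i ∈ t, Z i) (∑ i ∈ t, M i) = ∑ i ∈ t, blk (Z i) (M i) := by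
  classical
  induction t using Finset.induction_on with
  | empty => rw [Finset.sum_empty, Finset.sum_empty, Finset.sum_empty, blk_zero]
  | insert a t ha ih =>
    rw [Finset.sum_insert ha, Finset.sum_insert ha, Finset.sum_insert ha, blk_add, ih]

theorem blk_pow (Z : Matrix (Fin d) (Fin d) ℂ) (M : Matrix (Fin n) (Fin n) ℂ) (k : ℕ) :
    blk Z M ^ k = blk (Z ^ k) (M ^ k) := by
  induction k with
  | zero => rw [pow_zero, pow_zero, pow_zero, blk_one]
  | succ k ih => rw [pow_succ, pow_succ, pow_succ, ih, blk_mul]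

theorem blk_map (f : ℂ → ℂ) (hf : f 0 = 0) (Z : Matrix (Fin d) (Fin d) ℂ)
    (M : Matrix (Fin n) (Fin n) ℂ) : (blk Z M).map f = blk (Z.map f) (M.map f) := by
  unfold blk
  rw [Matrix.fromBlocks_map]
  congr 1 <;>
  · ext i j
    simp [hf]

end Blk

theorem stab_sum {R : Type} [Fintype R] [DecidableEq R] {H : Set (Matrix R R ℂ)} {k : ℕ}
    {ι : Type} (t : Finset ι) {X : ι → Matrix R R ℂ} (h : ∀ i ∈ t, Stab H k (X i)) :
    Stab H k (∑ i ∈ t, X i) := by
  classical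
  induction t using Finset.induction_on with
  | empty =>
    rw [Finset.sum_empty]
    exact Stab.zero
  | insert a t ha ih =>
    rw [Finset.sum_insert ha]
    exact (h a (Finset.mem_insert_self _ _)).add (ih fun i hi => h i (Finset.mem_insert_of_mem hi))

variable {g d : ℕ} {A : AbVar g} (V : Structure d)
  {s n : ℕ} {r : Fin s → ℕ} {B : Fin n → Ten A r} {w : Fin s → ℤ}
  {P : Matrix (Fin n) (Fin n) ℂ} {Wt : Matrix (Fin n) (Fin n) ℚ}
  {H : Set (Matrix (Fin d ⊕ Fin n) (Fin d ⊕ Fin n) ℂ)}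

/-- The elements which act by elements of the Lie algebra of the group. -/
def GG (B : Fin n → Ten A r) (Wt : Matrix (Fin n) (Fin n) ℚ)
    (H : Set (Matrix (Fin d ⊕ Fin n) (Fin d ⊕ Fin n) ℂ)) : Submodule ℚ (Elt d A) where
  carrier := {e | e.2.1 ∈ A.NA ∧ ∃ N, Rel B e.2.1 N ∧
    ∀ k, Stab H k (blk (e.1.map fun q => (q : ℂ)) (cq N + (e.2.2 : ℂ) • cq Wt))}
  zero_mem' := ⟨A.NA.zero_mem, 0, Rel.zero, fun k => by
    have h : blk ((0 : Elt d A).1.map fun q => (q : ℂ)) (cq (0 : Matrix (Fin n) (Fin n) ℚ) +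
        (((0 : Elt d A).2.2 : ℚ) : ℂ) • cq Wt) = 0 := by
      have e1 : ((0 : Elt d A).1.map fun q => (q : ℂ)) = 0 := by
        ext i j
        simp
      have e2 : cq (0 : Matrix (Fin n) (Fin n) ℚ) = 0 := by
        ext i j
        simp [cq]
      have e3 : (((0 : Elt d A).2.2 : ℚ) : ℂ) = 0 := Rat.cast_zero
      rw [e1, e2, e3, zero_smul, add_zero, blk_zero]
    rw [h]
    exact Stab.zero⟩
  add_mem' := by
    rintro a b ⟨ha, N, hN, hN'⟩ ⟨hb, M, hM, hM'⟩
    refine ⟨A.NA.add_mem ha hb, N + M, hN.add hM, fun k => ?_⟩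
    have h := (hN' k).add (hM' k)
    rw [← blk_add] at h
    convert h using 2
    · ext i j
      simp
    · have e1 : cq (N + M) = cq N + cq M := by
        ext i j
        simp [cq]
      have e2 : (((a + b).2.2 : ℚ) : ℂ) = a.2.2 + b.2.2 := by
        change (((a.2.2 + b.2.2 : ℚ)) : ℂ) = _
        push_cast
        rfl
      rw [e1, e2, add_smul]
      abel
  smul_mem' := by
    rintro c a ⟨ha, N, hN, hN'⟩
    refine ⟨A.NA.smul_mem c ha, c • N, hN.smul c, fun k => ?_⟩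
    have h := (hN' k).smul (c : ℂ)
    rw [← blk_smul] at h
    convert h using 2
    · ext i j
      simp
    · have e1 : cq (c • N) = (c : ℂ) • cq N := by
        ext i j
        simp [cq]
      have e2 : (((c • a).2.2 : ℚ) : ℂ) = c * a.2.2 := by
        change (((c * a.2.2 : ℚ)) : ℂ) = _
        push_cast
        rfl
      rw [e1, e2, smul_add, smul_smul]

/-- The complexification. -/
theorem inC_GG {Z : Matrix (Fin d) (Fin d) ℂ} {X : EndC A} {c : ℂ} (h : InC (GG B Wt H) Z X c) :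
    ∃ N, RelC B X N ∧ ∀ k, Stab H k (blk Z (N + c • cq Wt)) := by
  classical
  obtain ⟨t, e, he, hZ, hX, hc⟩ := h.dec
  choose N hN hN' using fun i => (he i).2
  refine ⟨∑ i ∈ t, (Basis.ofVectorSpace ℚ ℂ i) • cq (N i), ?_, fun k => ?_⟩
  · rw [hX]
    clear hX hZ hc
    induction t using Finset.induction_on with
    | empty =>
      rw [Finset.sum_empty, Finset.sum_empty]
      exact RelC.zero
    | insert a t ha ih =>
      rw [Finset.sum_insert ha, Finset.sum_insert ha]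
      exact ((relC_of_rel (hN a)).smul _).add ih
  · have h1 : blk Z (∑ i ∈ t, (Basis.ofVectorSpace ℚ ℂ i) • cq (N i) + c • cq Wt) =
        ∑ i ∈ t, (Basis.ofVectorSpace ℚ ℂ i) • blk ((e i).1.map fun q => (q : ℂ))
          (cq (N i) + ((e i).2.2 : ℂ) • cq Wt) := by
      have h2 : ∑ i ∈ t, (Basis.ofVectorSpace ℚ ℂ i) • cq (N i) + c • cq Wt =
          ∑ i ∈ t, (Basis.ofVectorSpace ℚ ℂ i) • (cq (N i) + ((e i).2.2 : ℂ) • cq Wt) := by
        conv_lhs => rw [hc, Finset.sum_smul, ← Finset.sum_add_distrib]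
        refine Finset.sum_congr rfl fun i _ => ?_
        rw [smul_add, smul_smul]
      rw [h2]
      conv_lhs => rw [hZ]
      rw [blk_sum]
      exact Finset.sum_congr rfl fun i _ => blk_smul _ _ _
    rw [h1]
    exact stab_sum t fun i _ => (hN' i k).smul _

/-- The group contains a point of the torsor of the periods of the sum. -/
structure PtV (V : Structure d) (P : Matrix (Fin n) (Fin n) ℂ)
    (H : Set (Matrix (Fin d ⊕ Fin n) (Fin d ⊕ Fin n) ℂ)) : Prop where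
  grp : AlgGrp QQ H
  pt : ∃ T T' : Matrix (Fin d ⊕ Fin n) (Fin d ⊕ Fin n) ℂ, T * T' = 1 ∧ (∀ i j, T' i j ∈ QA) ∧
    blk V.matrix P * T ∈ H

variable {V}

theorem GG_gen (h : Mot w B P) (hW : WRel w B Wt) (hH : PtV V P H) (D : Derivation QBar ℂ ℂ)
    (lam : ℂ →ₗ[ℚ] ℚ) : gen A V D lam ∈ GG B Wt H := by
  obtain ⟨N, hN⟩ := h.st _ (X0_NA (A := A) D lam)
  refine ⟨X0_NA D lam, N, hN, fun k => ?_⟩
  have hu : IsUnit P.det := isUnit_iff_ne_zero.2 h.det
  have h1 := Matrix.mul_nonsing_inv _ hu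
  have h2 := Matrix.nonsing_inv_mul _ hu
  obtain ⟨T, T', h3, h4, h5⟩ := hH.pt
  have e1 : blk V.matrix P * blk (inv V) P⁻¹ = 1 := by rw [blk_mul, mul_inv, h1, blk_one]
  have e2 : blk (inv V) P⁻¹ * blk V.matrix P = 1 := by rw [blk_mul, inv_mul, h2, blk_one]
  have h6 := hH.grp.stab_der QQ_le_QA (fun x hx => mem_QA.1 hx) e1 e2 h3 h4 h5 (derQ D) (d := k)
  have h7 := hH.grp.stab_map (lamF lam) h6
  have h8 : ((blk V.matrix P).map (derQ D) * blk (inv V) P⁻¹).map (lamF lam) =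
      blk ((gen A V D lam).1.map fun q => (q : ℂ))
        (cq N + ((gen A V D lam).2.2 : ℂ) • cq Wt) := by
    rw [blk_map _ (map_zero _), blk_mul, blk_map _ (map_zero _)]
    congr 1
    ext b c
    rw [Matrix.map_apply, lamF_apply]
    have h9 := lam_log h h1 D lam hN hW b c
    have h10 : P.map (derQ D) = P.map D := rfl
    rw [h10, h9]
    change (((N b c + lam (D tau / (2 * tau)) * Wt b c : ℚ)) : ℂ) = (N b c : ℂ) +
      (lam (D tau / (2 * tau)) : ℂ) * (Wt b c : ℂ)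
    push_cast
    rfl
  rwa [h8] at h7

theorem GG_br (h : Mot w B P) (hW : WRel w B Wt) {a b : Elt d A} (ha : a ∈ GG B Wt H)
    (hb : b ∈ GG B Wt H) : br a b ∈ GG B Wt H := by
  obtain ⟨ha0, N, hN, hN'⟩ := ha
  obtain ⟨hb0, M, hM, hM'⟩ := hb
  refine ⟨A.NA_bracket hb0 ha0, _, hM.br hN, fun k => ?_⟩
  have h1 := (hN' k).comm (hM' k)
  have hcN : cq N * cq Wt = cq Wt * cq N := by
    have h3 := congrArg (fun M : Matrix (Fin n) (Fin n) ℚ => M.map (algebraMap ℚ ℂ))
      (WRel.comm h.li hN hW)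
    beta_reduce at h3
    rw [Matrix.map_mul, Matrix.map_mul] at h3
    exact h3
  have hcM : cq M * cq Wt = cq Wt * cq M := by
    have h3 := congrArg (fun M : Matrix (Fin n) (Fin n) ℚ => M.map (algebraMap ℚ ℂ))
      (WRel.comm h.li hM hW)
    beta_reduce at h3
    rw [Matrix.map_mul, Matrix.map_mul] at h3
    exact h3
  rw [blk_mul, blk_mul, ← blk_sub] at h1
  convert h1 using 2
  · change (a.1 * b.1 - b.1 * a.1).map (algebraMap ℚ ℂ) = a.1.map (algebraMap ℚ ℂ) *
      b.1.map (algebraMap ℚ ℂ) - b.1.map (algebraMap ℚ ℂ) * a.1.map (algebraMap ℚ ℂ)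
    rw [Matrix.map_sub _ (map_sub _), Matrix.map_mul, Matrix.map_mul]
  · have h2 : cq (N * M - M * N) = cq N * cq M - cq M * cq N := by
      change (N * M - M * N).map (algebraMap ℚ ℂ) = N.map (algebraMap ℚ ℂ) *
        M.map (algebraMap ℚ ℂ) - M.map (algebraMap ℚ ℂ) * N.map (algebraMap ℚ ℂ)
      rw [Matrix.map_sub _ (map_sub _), Matrix.map_mul, Matrix.map_mul]
    have h3 : (((br a b).2.2 : ℚ) : ℂ) = 0 := Rat.cast_zero
    rw [h2, h3, zero_smul, add_zero, add_mul, mul_add, mul_add, add_mul, mul_add, mul_add]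
    simp only [smul_mul_assoc, mul_smul_comm, hcN, hcM, smul_smul]
    rw [mul_comm (a.2.2 : ℂ) (b.2.2 : ℂ)]
    abel

theorem sig_mul (σ : ℂ →+ ℂ) (c : ℂ) (q : ℚ) : σ (c * (q : ℂ)) = σ c * (q : ℂ) := by
  rw [mul_comm, cast_qsmul, map_rat_smul σ q c, ← cast_qsmul, mul_comm]

theorem lam_mul (lam : ℂ →ₗ[ℚ] ℚ) (c : ℂ) (q : ℚ) : lam (c * (q : ℂ)) = lam c * q := by
  rw [mul_comm, cast_qsmul, map_smul, smul_eq_mul, mul_comm]

theorem GG_rep (h : Mot w B P) (hW : WRel w B Wt) (hH : AlgGrp QQ H) {σ : ℂ →+ ℂ}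
    {Z Z' : Matrix (Fin d) (Fin d) ℂ} {X X' : EndC A} {c : ℂ} (hZ : RepZ σ Z Z')
    (hX : RepX σ X X') (hI : InC (GG B Wt H) Z X c) : InC (GG B Wt H) Z' X' (σ c) := by
  classical
  have hX'N := hX.cmp_NA fun lam => (hI lam).1
  obtain ⟨M, hM, hMs⟩ := inC_GG hI
  obtain ⟨M', hM'⟩ := exists_RelC h.st (end_mem_span (fun P => P ∈ A.NA) X' hX'N)
  obtain ⟨N, Zs, Zn, π, δ, rfl, hc, hn, h1, h2, h3⟩ := hZ
  obtain ⟨m, b, x, hx, hx'⟩ := hX
  obtain ⟨S, S', J, hS, hS', hd⟩ := diagC h.li hW b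
  obtain ⟨θ, hθ⟩ : ∃ θ : Fin n → ℂ, ∀ j, θ j = ∑ k, x ((J j).2 k) +
    c * (((r (J j).1 : ℚ) - 2 * w (J j).1 : ℚ) : ℂ) := ⟨_, fun _ => rfl⟩
  have e1 : M + c • cq Wt = S * Matrix.diagonal θ * S' := by
    rw [hd X x hx M hM c]
    congr 3
    funext j
    exact (hθ j).symm
  have e2 : M' + σ c • cq Wt = S * Matrix.diagonal (fun j => σ (θ j)) * S' := by
    rw [hd X' (fun k => σ (x k)) hx' M' hM' (σ c)]
    congr 3
    funext j
    rw [hθ, map_add, map_sum, sig_mul]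
  have hprod : ∀ u v : Fin n → ℂ, S * Matrix.diagonal u * S' * (S * Matrix.diagonal v * S') =
      S * Matrix.diagonal (fun i => u i * v i) * S' := fun u v => R918.conj_mul_conj hS' u v
  -- the projections
  let π' : Fin N ⊕ Fin n → Matrix (Fin d ⊕ Fin n) (Fin d ⊕ Fin n) ℂ :=
    Sum.elim (fun t => blk (π t) 0) fun j => blk 0 (S * Matrix.diagonal (Pi.single j 1) * S')
  let δ' : Fin N ⊕ Fin n → ℂ := Sum.elim δ θ
  have hsum : ∑ t, π' t = 1 := by
    rw [Fintype.sum_sum_type]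
    change ∑ t, blk (π t) 0 + ∑ j, blk 0 (S * Matrix.diagonal (Pi.single j 1) * S') = 1
    rw [← blk_sum, ← blk_sum, h1, ← Finset.sum_mul, ← Finset.mul_sum]
    have e3 : ∑ j : Fin n, Matrix.diagonal (Pi.single j (1 : ℂ) : Fin n → ℂ) = 1 := by
      ext i k
      rw [Matrix.sum_apply, Matrix.one_apply, Finset.sum_eq_single i]
      · rw [Matrix.diagonal_apply, Pi.single_eq_same]
      · intro l _ hl
        rw [Matrix.diagonal_apply]
        split_ifs with hik
        · exact Pi.single_eq_of_ne hl.symm _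
        · rfl
      · intro hi
        exact absurd (Finset.mem_univ _) hi
    rw [e3, mul_one, hS]
    simp only [Finset.sum_const_zero]
    rw [← blk_add, add_zero, zero_add, blk_one]
  have hdiag : ∀ (θ : Fin n → ℂ) (j : Fin n), S * Matrix.diagonal θ * S' *
      (S * Matrix.diagonal (Pi.single j 1) * S') =
        θ j • (S * Matrix.diagonal (Pi.single j 1) * S') := by
    intro θ j
    rw [hprod]
    have e3 : (fun i => θ i * (Pi.single j (1 : ℂ) : Fin n → ℂ) i) =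
        θ j • (Pi.single j (1 : ℂ) : Fin n → ℂ) := by
      funext i
      rw [Pi.smul_apply, smul_eq_mul]
      by_cases hij : i = j
      · rw [hij]
      · rw [Pi.single_eq_of_ne hij, mul_zero, mul_zero]
    rw [e3, Matrix.diagonal_smul, Matrix.mul_smul, Matrix.smul_mul]
  have hA : ∀ t, blk Zs (M + c • cq Wt) * π' t = δ' t • π' t := by
    rintro (t | j)
    · change blk Zs _ * blk (π t) 0 = δ t • blk (π t) 0
      rw [blk_mul, h2, mul_zero, ← blk_smul, smul_zero]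
    · change blk Zs _ * blk 0 _ = θ j • blk 0 _
      rw [blk_mul, mul_zero, e1, hdiag, ← blk_smul, smul_zero]
  have hB : ∀ t, blk Z' (M' + σ c • cq Wt) * π' t = σ (δ' t) • π' t := by
    rintro (t | j)
    · change blk Z' _ * blk (π t) 0 = σ (δ t) • blk (π t) 0
      rw [blk_mul, h3, mul_zero, ← blk_smul, smul_zero]
    · change blk Z' _ * blk 0 _ = σ (θ j) • blk 0 _
      rw [blk_mul, mul_zero, e2, hdiag (fun j => σ (θ j)) j, ← blk_smul, smul_zero]
  have hcomm : Commute (blk Zs (M + c • cq Wt)) (blk Zn (0 : Matrix (Fin n) (Fin n) ℂ)) := by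
    change _ * _ = _ * _
    rw [blk_mul, blk_mul, hc.eq, mul_zero, zero_mul]
  have hnil : IsNilpotent (blk Zn (0 : Matrix (Fin n) (Fin n) ℂ)) := by
    obtain ⟨k, hk⟩ := hn
    refine ⟨k + 1, ?_⟩
    rw [blk_pow, pow_succ, hk, zero_mul, zero_pow (Nat.succ_ne_zero k), blk_zero]
  have hfin : ∀ k, Stab H k (blk Z' (M' + σ c • cq Wt)) := fun k => by
    refine stab_gen σ hsum hA hB hcomm hnil ?_
    rw [← blk_add, add_zero]
    exact hMs k
  -- the components
  intro lam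
  refine ⟨hX'N lam, mp lam M', hM'.cmp lam, fun k => ?_⟩
  have h8 := hH.stab_map (lamF lam) (hfin k)
  rw [blk_map _ (map_zero _)] at h8
  convert h8 using 2
  · ext i j
    rfl
  · ext i j
    change ((lam (M' i j) : ℚ) : ℂ) + ((lam (σ c) : ℚ) : ℂ) * (Wt i j : ℂ) =
      ((lam (M' i j + σ c * (Wt i j : ℂ)) : ℚ) : ℂ)
    rw [map_add, lam_mul, Rat.cast_add, Rat.cast_mul]

theorem GG_closed (h : Mot w B P) (hW : WRel w B Wt) (hH : PtV V P H) :
    Closed V (GG B Wt H) where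
  br := fun _ ha _ hb => GG_br h hW ha hb
  gen := fun D lam => GG_gen h hW hH D lam
  rep := fun _ _ _ _ _ _ hZ hX hI => GG_rep h hW hH.grp hZ hX hI

/-- The elements of the Lie algebra which act trivially on the structure. -/
theorem stab_K (h : Mot w B P) (hW : WRel w B Wt) (hH : PtV V P H) {X : Module.End ℚ A.H1}
    (hX : ((0, X, 0) : Elt d A) ∈ LL A V) {M : Matrix (Fin n) (Fin n) ℚ} (hM : Rel B X M) (k : ℕ) :
    Stab H k (blk 0 (cq M)) := by
  obtain ⟨-, N, hN, h1⟩ := LL_le V (GG_closed h hW hH) hX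
  have h2 : M = N := hM.uniq h.li hN
  have h3 := h1 k
  rw [← h2] at h3
  convert h3 using 2
  · ext i j
    simp
  · rw [Rat.cast_zero, zero_smul, add_zero]

end Pool.Agent.V8H93.CS

end
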