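import Pool.Agent.R917.EC.Rep

set_option autoImplicit false
set_option linter.unusedSectionVars false

/-!
# Semisimple parts of the elements of the Lie algebra of an algebraic group
-/

open Matrix Finset

namespace Pool.Agent.V8H93.CS

open Pool.Agent.TH119.MX Pool.Agent.TH119.DR Pool.Agent.W437.HK Pool.Agent.R917.EC

section Act

variable {R κ : Type} [Fintype R] [DecidableEq R] [Fintype κ] [DecidableEq κ]

/-- The action in one variable, as a linear map. -/
noncomputable def ak (X : Matrix R R ℂ) (k : κ) : Module.End ℂ ((κ → R) → ℂ) where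
  toFun := actk X k
  map_add' := actk_add X k
  map_smul' a c := by
    funext I
    simp only [actk, Pi.smul_apply, smul_eq_mul, Finset.mul_sum, RingHom.id_apply]
    exact Finset.sum_congr rfl fun j _ => by ring

theorem ak_apply (X : Matrix R R ℂ) (k : κ) (c : (κ → R) → ℂ) : ak X k c = actk X k c := rfl

theorem ak_one (k : κ) : ak (1 : Matrix R R ℂ) k = 1 := by
  refine LinearMap.ext fun c => ?_
  funext I
  change ∑ j, (1 : Matrix R R ℂ) j (I k) * c (Function.update I k j) = c I
  rw [Finset.sum_eq_single (I k)]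
  · rw [Matrix.one_apply_eq, one_mul, Function.update_eq_self]
  · intro j _ hj
    rw [Matrix.one_apply_ne hj, zero_mul]
  · intro h
    exact absurd (Finset.mem_univ _) h

theorem ak_mul (X Y : Matrix R R ℂ) (k : κ) : ak X k * ak Y k = ak (Y * X) k :=
  LinearMap.ext fun c => actk_same X Y k c

theorem ak_add (X Y : Matrix R R ℂ) (k : κ) : ak (X + Y) k = ak X k + ak Y k := by
  refine LinearMap.ext fun c => ?_
  funext I
  change ∑ j, (X + Y) j (I k) * c (Function.update I k j) =
    ∑ j, X j (I k) * c (Function.update I k j) + ∑ j, Y j (I k) * c (Function.update I k j)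
  rw [← Finset.sum_add_distrib]
  exact Finset.sum_congr rfl fun j _ => by rw [Matrix.add_apply, add_mul]

theorem ak_smul (a : ℂ) (X : Matrix R R ℂ) (k : κ) : ak (a • X) k = a • ak X k := by
  refine LinearMap.ext fun c => ?_
  funext I
  change ∑ j, (a • X) j (I k) * c (Function.update I k j) =
    a * ∑ j, X j (I k) * c (Function.update I k j)
  rw [Finset.mul_sum]
  exact Finset.sum_congr rfl fun j _ => by rw [Matrix.smul_apply, smul_eq_mul, mul_assoc]

theorem ak_pow (X : Matrix R R ℂ) (k : κ) (n : ℕ) : ak X k ^ n = ak (X ^ n) k := by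
  induction n with
  | zero => rw [pow_zero, pow_zero, ak_one]
  | succ n ih => rw [pow_succ, ih, ak_mul, ← pow_succ']

theorem ak_comm (X Y : Matrix R R ℂ) {k l : κ} (h : k ≠ l) : Commute (ak X k) (ak Y l) :=
  LinearMap.ext fun c => actk_comm X Y h c

theorem ak_comm' {X Y : Matrix R R ℂ} (h : Commute X Y) (k l : κ) :
    Commute (ak X k) (ak Y l) := by
  by_cases hkl : k = l
  · subst hkl
    change ak X k * ak Y k = ak Y k * ak X k
    rw [ak_mul, ak_mul, h.eq]
  · exact ak_comm X Y hkl

theorem ak_aeval (X : Matrix R R ℂ) (k : κ) (p : Polynomial ℂ) :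
    Polynomial.aeval (ak X k) p = ak (Polynomial.aeval X p) k := by
  induction p using Polynomial.induction_on' with
  | add p q hp hq => rw [map_add, map_add, hp, hq, ak_add]
  | monomial n a =>
    rw [Polynomial.aeval_monomial, Polynomial.aeval_monomial, ak_pow,
      Algebra.algebraMap_eq_smul_one, Algebra.algebraMap_eq_smul_one, smul_mul_assoc,
      smul_mul_assoc, one_mul, one_mul, ak_smul]

/-- The action, as a linear map. -/
noncomputable def aL (X : Matrix R R ℂ) : Module.End ℂ ((κ → R) → ℂ) := ∑ k, ak X k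

theorem aL_apply (X : Matrix R R ℂ) (c : (κ → R) → ℂ) : aL X c = act X c := by
  rw [act_eq_sum, aL, LinearMap.sum_apply]
  rfl

theorem aL_add (X Y : Matrix R R ℂ) :
    (aL (X + Y) : Module.End ℂ ((κ → R) → ℂ)) = aL X + aL Y := by
  unfold aL
  rw [← Finset.sum_add_distrib]
  exact Finset.sum_congr rfl fun k _ => ak_add X Y k

theorem aL_comm {X Y : Matrix R R ℂ} (h : Commute X Y) :
    Commute (aL X : Module.End ℂ ((κ → R) → ℂ)) (aL Y) :=
  Commute.sum_left _ _ _ fun k _ => Commute.sum_right _ _ _ fun l _ => ak_comm' h k l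

theorem aL_nil {X : Matrix R R ℂ} (h : IsNilpotent X) :
    IsNilpotent (aL X : Module.End ℂ ((κ → R) → ℂ)) := by
  refine Commute.isNilpotent_sum (fun k _ => ?_) fun k l _ _ => ak_comm' (Commute.refl X) k l
  obtain ⟨n, hn⟩ := h
  refine ⟨n, ?_⟩
  rw [ak_pow, hn]
  have h1 := ak_smul (0 : ℂ) (0 : Matrix R R ℂ) k
  rwa [zero_smul, zero_smul] at h1

theorem aL_semi {X : Matrix R R ℂ} {p : Polynomial ℂ} (hp : Squarefree p)
    (h : Polynomial.aeval X p = 0) :
    (aL X : Module.End ℂ ((κ → R) → ℂ)).IsSemisimple := by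
  classical
  have h1 : ∀ k : κ, (ak X k).IsSemisimple := fun k => by
    refine Module.End.isSemisimple_of_squarefree_aeval_eq_zero hp ?_
    rw [ak_aeval, h]
    have h1 := ak_smul (0 : ℂ) (0 : Matrix R R ℂ) k
    rwa [zero_smul, zero_smul] at h1
  unfold aL
  generalize (Finset.univ : Finset κ) = s
  induction s using Finset.induction_on with
  | empty =>
    rw [Finset.sum_empty]
    exact Module.End.isSemisimple_zero
  | insert a s ha ih =>
    rw [Finset.sum_insert ha]
    refine Module.End.IsSemisimple.add_of_commute ?_ (h1 a) ih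
    exact Commute.sum_right _ _ _ fun l _ => ak_comm' (Commute.refl X) a l

/-- A subspace which is stable under a sum of a semisimple and a nilpotent endomorphism that commute is
stable under the semisimple one. -/
theorem stable_ss {W : Type} [AddCommGroup W] [Module ℂ W] [FiniteDimensional ℂ W]
    {n s : Module.End ℂ W} (hn : IsNilpotent n) (hs : s.IsSemisimple) (hc : Commute n s)
    {U : Submodule ℂ W} (hU : ∀ w ∈ U, (n + s) w ∈ U) : ∀ w ∈ U, s w ∈ U := by
  obtain ⟨n₀, hn₀, s₀, hs₀, h1, h2, h3⟩ := (n + s).exists_isNilpotent_isSemisimple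
  have hc0 : Commute n₀ s₀ := by
    have h4 : Commute (n + s) n₀ :=
      Algebra.commute_of_mem_adjoin_singleton_of_commute hn₀ (Commute.refl (n + s))
    exact Algebra.commute_of_mem_adjoin_singleton_of_commute hs₀ h4.symm
  obtain ⟨-, h4⟩ := Module.End.isNilpotent_isSemisimple_unique hn hs h1 h2 hc hc0 h3
  rw [h4]
  have h5 : ∀ x ∈ Algebra.adjoin ℂ {n + s}, ∀ w ∈ U, x w ∈ U := by
    intro x hx
    induction hx using Algebra.adjoin_induction with
    | mem x hx =>
      intro w hw
      rw [Set.mem_singleton_iff.1 hx]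
      exact hU w hw
    | algebraMap r =>
      intro w hw
      rw [Module.algebraMap_end_apply]
      exact U.smul_mem r hw
    | add x y _ _ hx hy =>
      intro w hw
      exact U.add_mem (hx w hw) (hy w hw)
    | mul x y _ _ hx hy =>
      intro w hw
      exact hx _ (hy w hw)
  exact h5 _ hs₀

theorem act_ss {Xs Xn : Matrix R R ℂ} (hc : Commute Xs Xn) (hn : IsNilpotent Xn)
    {p : Polynomial ℂ} (hp : Squarefree p) (h : Polynomial.aeval Xs p = 0)
    {U : Submodule ℂ ((κ → R) → ℂ)} (hU : ∀ w ∈ U, act (Xs + Xn) w ∈ U) :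
    ∀ w ∈ U, act Xs w ∈ U := by
  intro w hw
  rw [← aL_apply]
  refine stable_ss (aL_nil hn) (aL_semi hp h) (aL_comm hc).symm (fun w hw => ?_) w hw
  rw [← aL_add, aL_apply, add_comm]
  exact hU w hw

end Act

section Stab

variable {B : Type} [Fintype B] [DecidableEq B] {H : Set (Matrix B B ℂ)}

theorem LL_one_mul (X : Matrix B B ℂ) : LL 1 * LL X = LL X := by
  rw [LL_mul_LL, Matrix.mul_one]

theorem LL_pow (X : Matrix B B ℂ) (n : ℕ) : LL X ^ (n + 1) = LL (X ^ (n + 1)) := by
  induction n with
  | zero => rw [zero_add, pow_one, pow_one]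
  | succ n ih => rw [pow_succ, ih, LL_mul_LL, ← pow_succ']

theorem LL_nil {X : Matrix B B ℂ} (h : IsNilpotent X) : IsNilpotent (LL X) := by
  obtain ⟨n, hn⟩ := h
  refine ⟨n + 1, ?_⟩
  rw [LL_pow, pow_succ, hn, zero_mul, LL_zero]

theorem nodal_sqf (s : Finset ℂ) : Squarefree (Lagrange.nodal s id : Polynomial ℂ) := by
  unfold Lagrange.nodal
  exact (Polynomial.separable_prod_X_sub_C_iff'.2 fun x _ y _ h => h).squarefree

/-- An eigenvalue decomposition gives a squarefree annihilating polynomial. -/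
theorem nodal_of_proj {S : Type} [Ring S] [Algebra ℂ S] {T : Type} [Fintype T] {X : S}
    {π : T → S} {δ : T → ℂ} (h1 : ∑ t, π t = 1) (hX : ∀ t, X * π t = δ t • π t) {s : Finset ℂ}
    (hs : ∀ t, δ t ∈ s) : Polynomial.aeval X (Lagrange.nodal s id) = 0 := by
  have h2 : ∀ (p : Polynomial ℂ) (t : T), Polynomial.aeval X p * π t = p.eval (δ t) • π t := by
    intro p t
    induction p using Polynomial.induction_on' with
    | add p q hp hq => rw [map_add, add_mul, hp, hq, Polynomial.eval_add, add_smul]
    | monomial n a =>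
      rw [Polynomial.aeval_monomial, Polynomial.eval_monomial, Algebra.algebraMap_eq_smul_one,
        smul_mul_assoc, one_mul, smul_mul_assoc, mul_smul]
      congr 1
      induction n with
      | zero => rw [pow_zero, pow_zero, one_mul, one_smul]
      | succ n ih => rw [pow_succ, mul_assoc, hX, mul_smul_comm, ih, smul_smul, pow_succ, mul_comm]
  rw [← mul_one (Polynomial.aeval X (Lagrange.nodal s id)), ← h1, Finset.mul_sum]
  refine Finset.sum_eq_zero fun t _ => ?_
  rw [h2, show (Lagrange.nodal s id : Polynomial ℂ).eval (δ t) = 0 from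
    Lagrange.eval_nodal_at_node (v := id) (hs t), zero_smul]

/-- The Lie algebra contains the semisimple parts. -/
theorem stab_ss {T : Type} [Fintype T] {Xs Xn : Matrix B B ℂ} {π : T → Matrix B B ℂ} {δ : T → ℂ}
    (h1 : ∑ t, π t = 1) (hX : ∀ t, Xs * π t = δ t • π t) (hc : Commute Xs Xn)
    (hn : IsNilpotent Xn) {k : ℕ} (hS : Stab H k (Xs + Xn)) : Stab H k Xs := by
  classical
  let ρ : Option T → Matrix (Option (B × B)) (Option (B × B)) ℂ :=
    fun o => o.elim (1 - LL 1) (fun t => LL (π t))
  let ε : Option T → ℂ := fun o => o.elim 0 δ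
  have h2 : ∑ o, (ρ o)ᵀ = 1 := by
    rw [← Matrix.transpose_sum, Fintype.sum_option]
    change ((1 - LL 1) + ∑ t, LL (π t))ᵀ = 1
    rw [← LL_sum, h1, sub_add_cancel, Matrix.transpose_one]
  have h3 : ∀ o, (LL Xs)ᵀ * (ρ o)ᵀ = ε o • (ρ o)ᵀ := by
    intro o
    rw [← Matrix.transpose_mul, ← Matrix.transpose_smul]
    congr 1
    rcases o with _ | t
    · change (1 - LL 1) * LL Xs = (0 : ℂ) • _
      rw [zero_smul, Matrix.sub_mul, Matrix.one_mul, LL_mul_LL, Matrix.mul_one, sub_self]
    · change LL (π t) * LL Xs = δ t • LL (π t)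
      rw [LL_mul_LL, hX, LL_smul]
  have h4 := nodal_of_proj (s := Finset.univ.image ε) h2 h3
    fun t => Finset.mem_image_of_mem _ (Finset.mem_univ t)
  have h5 : Polynomial.aeval (LL Xs) (Lagrange.nodal (Finset.univ.image ε) id) = 0 := by
    have h6 : ∀ p : Polynomial ℂ, Polynomial.aeval (LL Xs)ᵀ p = (Polynomial.aeval (LL Xs) p)ᵀ := by
      intro p
      induction p using Polynomial.induction_on' with
      | add p q hp hq => rw [map_add, map_add, hp, hq, Matrix.transpose_add]
      | monomial n a =>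
        rw [Polynomial.aeval_monomial, Polynomial.aeval_monomial,
          Algebra.algebraMap_eq_smul_one, smul_mul_assoc, smul_mul_assoc, one_mul, one_mul,
          Matrix.transpose_smul, Matrix.transpose_pow]
    rw [h6] at h4
    exact Matrix.transpose_eq_zero.1 h4
  refine act_ss (Xn := LL Xn) ?_ (LL_nil hn) (nodal_sqf _) h5 fun w hw => ?_
  · change LL Xs * LL Xn = LL Xn * LL Xs
    rw [LL_mul_LL, LL_mul_LL, hc.eq]
  · rw [← LL_add]
    exact hS w hw

/-- **Replicas** of the elements of the Lie algebra which are not necessarily semisimple. -/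
theorem stab_gen {T : Type} [Fintype T] [DecidableEq T] {Xs Xn Y : Matrix B B ℂ}
    {π : T → Matrix B B ℂ} {δ : T → ℂ} (σ : ℂ →+ ℂ) (h1 : ∑ t, π t = 1)
    (hX : ∀ t, Xs * π t = δ t • π t) (hY : ∀ t, Y * π t = σ (δ t) • π t) (hc : Commute Xs Xn)
    (hn : IsNilpotent Xn) {k : ℕ} (hS : Stab H k (Xs + Xn)) : Stab H k Y :=
  stab_replica σ h1 hX hY (stab_ss h1 hX hc hn hS)

end Stab

end Pool.Agent.V8H93.CS
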