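import Pool.Agent.V8H93.CS.Full

set_option autoImplicit false
set_option linter.unusedSectionVars false

/-!
# The eigenvalues of the real elements which preserve a flag
-/

open Module Function Matrix

noncomputable section

namespace Pool.Agent.V8H93.CS

open Pool.Agent.V8H93.LK

/-! ### Real polynomials -/

/-- The zeros in the upper half plane. -/
def upper (p : Polynomial ℝ) : Finset ℂ := by
  classical
  exact (p.map (algebraMap ℝ ℂ)).roots.toFinset.filter fun a => 0 < a.im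

theorem mem_upper {p : Polynomial ℝ} (hp : p ≠ 0) {a : ℂ} :
    a ∈ upper p ↔ (p.map (algebraMap ℝ ℂ)).eval a = 0 ∧ 0 < a.im := by
  classical
  unfold upper
  rw [Finset.mem_filter, Multiset.mem_toFinset,
    Polynomial.mem_roots ((Polynomial.map_ne_zero_iff (algebraMap ℝ ℂ).injective).2 hp)]
  rfl

theorem eval_conj (p : Polynomial ℝ) (a : ℂ) :
    (p.map (algebraMap ℝ ℂ)).eval ((starRingEnd ℂ) a) =
      (starRingEnd ℂ) ((p.map (algebraMap ℝ ℂ)).eval a) := by
  rw [Polynomial.eval_map, Polynomial.eval_map, Polynomial.hom_eval₂]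
  congr 1
  ext x
  simp

/-- A real polynomial of degree `m` has at most `m / 2` zeros in the upper half plane. -/
theorem card_upper {p : Polynomial ℝ} (hp : p ≠ 0) : (upper p).card ≤ p.natDegree / 2 := by
  classical
  have hp' : p.map (algebraMap ℝ ℂ) ≠ 0 :=
    (Polynomial.map_ne_zero_iff (algebraMap ℝ ℂ).injective).2 hp
  have h1 : Disjoint (upper p) ((upper p).image (starRingEnd ℂ)) := by
    rw [Finset.disjoint_left]
    intro a ha ha'
    obtain ⟨b, hb, rfl⟩ := Finset.mem_image.1 ha'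
    have h2 := ((mem_upper hp).1 ha).2
    have h3 := ((mem_upper hp).1 hb).2
    rw [Complex.conj_im] at h2
    linarith
  have h2 : upper p ∪ (upper p).image (starRingEnd ℂ) ⊆
      (p.map (algebraMap ℝ ℂ)).roots.toFinset := by
    intro a ha
    rw [Multiset.mem_toFinset, Polynomial.mem_roots hp']
    rcases Finset.mem_union.1 ha with h | h
    · exact ((mem_upper hp).1 h).1
    · obtain ⟨b, hb, rfl⟩ := Finset.mem_image.1 h
      change (p.map (algebraMap ℝ ℂ)).eval _ = 0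
      rw [eval_conj, ((mem_upper hp).1 hb).1, map_zero]
  have h3 := Finset.card_le_card h2
  rw [Finset.card_union_of_disjoint h1,
    Finset.card_image_of_injective _ (starRingEnd ℂ).injective] at h3
  have h4 := (Multiset.toFinset_card_le (p.map (algebraMap ℝ ℂ)).roots).trans
    (Polynomial.card_roots' _)
  rw [Polynomial.natDegree_map] at h4
  omega

/-- The zeros in the upper half plane of a product. -/
theorem card_upper_prod {ℓ : ℕ} (p : ℕ → Polynomial ℝ) (hp : ∀ i, p i ≠ 0) :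
    (upper (∏ i ∈ Finset.range ℓ, p i)).card ≤ ∑ i ∈ Finset.range ℓ, (p i).natDegree / 2 := by
  classical
  have h1 : upper (∏ i ∈ Finset.range ℓ, p i) ⊆ (Finset.range ℓ).biUnion fun i => upper (p i) := by
    intro a ha
    rw [mem_upper (Finset.prod_ne_zero_iff.2 fun i _ => hp i), Polynomial.map_prod,
      Polynomial.eval_prod, Finset.prod_eq_zero_iff] at ha
    obtain ⟨⟨i, hi, h2⟩, h3⟩ := ha
    exact Finset.mem_biUnion.2 ⟨i, hi, (mem_upper (hp i)).2 ⟨h2, h3⟩⟩
  refine (Finset.card_le_card h1).trans (Finset.card_biUnion_le.trans ?_)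
  exact Finset.sum_le_sum fun i _ => card_upper (hp i)

/-! ### Flags -/

variable {d : ℕ}

theorem comp_mulVec {m : ℕ} (Q : Matrix (Fin m) (Fin d) ℚ) (lam : ℂ →ₗ[ℚ] ℚ) (v : Fin d → ℂ) :
    (fun i => lam ((Q.map (fun q => (q : ℂ)) *ᵥ v) i)) = Q *ᵥ fun j => lam (v j) := by
  funext i
  change lam (∑ j, (Q i j : ℂ) * v j) = ∑ j, Q i j * lam (v j)
  rw [map_sum]
  exact Finset.sum_congr rfl fun j _ => by rw [cast_qsmul, map_smul, smul_eq_mul]

/-- The action on a graded piece of a flag. -/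
theorem exists_poly {ι : Type} [Fintype ι] {U' U : Submodule ℚ (Fin d → ℚ)} (hle : U' ≤ U)
    (Z : ι → Matrix (Fin d) (Fin d) ℚ) (hU : ∀ i, ∀ u ∈ U, ρ (Z i) u ∈ U)
    (hU' : ∀ i, ∀ u ∈ U', ρ (Z i) u ∈ U') (τ : ι → ℝ) :
    ∃ p : Polynomial ℝ, p.Monic ∧ p.natDegree = finrank ℚ U - finrank ℚ U' ∧
      ∀ v ∈ sp U, Polynomial.aeval
        (tl (∑ i, (τ i : ℂ) • (Z i).map (fun q => (q : ℂ)))) (p.map (algebraMap ℝ ℂ)) v ∈ sp U' := by
  classical
  obtain ⟨m, hm⟩ : ∃ m, m = finrank ℚ U - finrank ℚ U' := ⟨_, rfl⟩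
  have hfr : finrank ℚ (U ⧸ U'.submoduleOf U) = m := by
    have h1 := Submodule.finrank_quotient_add_finrank (U'.submoduleOf U)
    have h2 : finrank ℚ (U'.submoduleOf U) = finrank ℚ U' :=
      (Submodule.submoduleOfEquivOfLe hle).finrank_eq
    omega
  let E : (U ⧸ U'.submoduleOf U) ≃ₗ[ℚ] (Fin m → ℚ) :=
    LinearEquiv.ofFinrankEq _ _ (by rw [hfr, finrank_fin_fun])
  let q0 : U →ₗ[ℚ] (Fin m → ℚ) := E.toLinearMap.comp (U'.submoduleOf U).mkQ
  have hq0 : ∀ u : U, q0 u = 0 ↔ (u : Fin d → ℚ) ∈ U' := by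
    intro u
    change E _ = 0 ↔ _
    rw [LinearEquiv.map_eq_zero_iff, Submodule.mkQ_apply, Submodule.Quotient.mk_eq_zero]
    exact Iff.rfl
  have hsurj : Function.Surjective q0 :=
    E.surjective.comp (Submodule.mkQ_surjective _)
  obtain ⟨s, hs⟩ := q0.exists_rightInverse_of_surjective (LinearMap.range_eq_top.2 hsurj)
  obtain ⟨q, hq⟩ := LinearMap.exists_extend q0
  have hq' : ∀ u (hu : u ∈ U), q u = q0 ⟨u, hu⟩ := fun u hu => by rw [← hq]; rfl
  -- the matrices
  let Q : Matrix (Fin m) (Fin d) ℚ := LinearMap.toMatrix' q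
  have hQ : ∀ u, Q *ᵥ u = q u := fun u => LinearMap.toMatrix'_mulVec q u
  let YL : ι → ((Fin m → ℚ) →ₗ[ℚ] (Fin m → ℚ)) := fun i =>
    q.comp ((ρ (Z i)).comp (U.subtype.comp s))
  let Y : ι → Matrix (Fin m) (Fin m) ℚ := fun i => LinearMap.toMatrix' (YL i)
  have hY : ∀ i, ∀ u ∈ U, Q *ᵥ (ρ (Z i) u) = Y i *ᵥ (Q *ᵥ u) := by
    intro i u hu
    rw [hQ, hQ]
    change _ = LinearMap.toMatrix' (YL i) *ᵥ q u
    rw [LinearMap.toMatrix'_mulVec]
    change q (ρ (Z i) u) = q (ρ (Z i) (s (q u) : Fin d → ℚ))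
    rw [← sub_eq_zero, ← map_sub, ← map_sub]
    have h1 : u - (s (q u) : Fin d → ℚ) ∈ U' := by
      have h2 : (⟨u, hu⟩ : U) - s (q u) ∈ LinearMap.ker q0 := by
        rw [LinearMap.mem_ker, map_sub, ← LinearMap.comp_apply q0 s, hs, LinearMap.id_apply,
          hq' u hu, sub_self]
      exact (hq0 _).1 h2
    have h3 := hU' i _ h1
    rw [hq' _ (hle h3), hq0]
    exact h3
  have hQc : ∀ v ∈ sp U, Q.map (fun q => (q : ℂ)) *ᵥ v = 0 → v ∈ sp U' := by
    intro v hv h0
    rw [mem_sp] at hv ⊢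
    intro lam
    have h1 := comp_mulVec Q lam v
    rw [h0] at h1
    have h2 : (fun i : Fin m => lam ((0 : Fin m → ℂ) i)) = 0 := by
      funext i
      rw [Pi.zero_apply, map_zero]
      rfl
    rw [h2, hQ, hq' _ (hv lam)] at h1
    exact (hq0 _).1 h1.symm
  have hYc : ∀ i, ∀ v ∈ sp U, Q.map (fun q => (q : ℂ)) *ᵥ (tl ((Z i).map fun q => (q : ℂ)) v) =
      (Y i).map (fun q => (q : ℂ)) *ᵥ (Q.map (fun q => (q : ℂ)) *ᵥ v) := by
    intro i v hv
    funext k
    rw [← sub_eq_zero, ← Module.forall_dual_apply_eq_zero_iff ℚ]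
    intro lam
    rw [map_sub]
    have h1 := congrFun (comp_mulVec Q lam (tl ((Z i).map fun q => (q : ℂ)) v)) k
    have h2 := congrFun (comp_mulVec (Y i) lam (Q.map (fun q => (q : ℂ)) *ᵥ v)) k
    rw [comp_mulVec] at h2
    have h3 : (fun j => lam (tl ((Z i).map fun q => (q : ℂ)) v j)) =
        ρ (Z i) fun j => lam (v j) := by
      rw [tl_apply]
      exact comp_mulVec (Z i)ᵀ lam v
    rw [h3, hY i _ (mem_sp.1 hv lam)] at h1
    exact sub_eq_zero.2 (h1.trans h2.symm)
  -- the combination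
  obtain ⟨T, hT⟩ : ∃ T, T = tl (∑ i, (τ i : ℂ) • (Z i).map (fun q => (q : ℂ))) := ⟨_, rfl⟩
  obtain ⟨G, hG⟩ : ∃ G : Matrix (Fin m) (Fin m) ℝ, G = ∑ i, τ i • (Y i).map (fun q => (q : ℝ)) :=
    ⟨_, rfl⟩
  have hTU : ∀ v ∈ sp U, T v ∈ sp U := by
    intro v hv
    rw [hT, tl_sum, LinearMap.sum_apply]
    refine Submodule.sum_mem _ fun i _ => ?_
    rw [tl_smul, LinearMap.smul_apply]
    refine Submodule.smul_mem _ _ (tl_stable (fun lam u hu => ?_) v hv)
    have h1 : mp lam ((Z i).map fun q => (q : ℂ)) = lam 1 • Z i := by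
      ext j k
      change lam ((Z i j k : ℚ) : ℂ) = lam 1 * Z i j k
      rw [← mul_one ((Z i j k : ℚ) : ℂ), cast_qsmul, map_smul, smul_eq_mul, mul_comm]
    rw [h1, map_smul]
    exact U.smul_mem _ (hU i u hu)
  have hGc : ∀ v ∈ sp U, Q.map (fun q => (q : ℂ)) *ᵥ (T v) =
      G.map (algebraMap ℝ ℂ) *ᵥ (Q.map (fun q => (q : ℂ)) *ᵥ v) := by
    intro v hv
    have h1 : G.map (algebraMap ℝ ℂ) = ∑ i, (τ i : ℂ) • (Y i).map (fun q => (q : ℂ)) := by
      rw [hG]
      ext j k
      rw [Matrix.map_apply, Matrix.sum_apply, Matrix.sum_apply, map_sum]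
      refine Finset.sum_congr rfl fun i _ => ?_
      simp
    rw [h1, hT, tl_sum, LinearMap.sum_apply, Matrix.mulVec_sum, Matrix.sum_mulVec]
    refine Finset.sum_congr rfl fun i _ => ?_
    rw [tl_smul, LinearMap.smul_apply, Matrix.mulVec_smul, hYc i v hv, Matrix.smul_mulVec]
  have hpoly : ∀ P : Polynomial ℂ, ∀ v ∈ sp U, Polynomial.aeval T P v ∈ sp U ∧
      Q.map (fun q => (q : ℂ)) *ᵥ (Polynomial.aeval T P v) =
        Polynomial.aeval (G.map (algebraMap ℝ ℂ)) P *ᵥ (Q.map (fun q => (q : ℂ)) *ᵥ v) := by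
    intro P
    induction P using Polynomial.induction_on' with
    | add P R hP hR =>
      intro v hv
      rw [map_add, map_add, LinearMap.add_apply, Matrix.mulVec_add, Matrix.add_mulVec]
      exact ⟨Submodule.add_mem _ (hP v hv).1 (hR v hv).1, by rw [(hP v hv).2, (hR v hv).2]⟩
    | monomial n a =>
      intro v hv
      rw [Polynomial.aeval_monomial, Polynomial.aeval_monomial, Module.End.mul_apply,
        Module.algebraMap_end_apply, Algebra.algebraMap_eq_smul_one, smul_mul_assoc, one_mul,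
        Matrix.mulVec_smul, Matrix.smul_mulVec]
      have key : (T ^ n) v ∈ sp U ∧ Q.map (fun q => (q : ℂ)) *ᵥ ((T ^ n) v) =
          (G.map (algebraMap ℝ ℂ)) ^ n *ᵥ (Q.map (fun q => (q : ℂ)) *ᵥ v) := by
        induction n with
        | zero =>
          rw [pow_zero, pow_zero, Matrix.one_mulVec]
          exact ⟨hv, rfl⟩
        | succ n ih =>
          rw [pow_succ', pow_succ', Module.End.mul_apply, hGc _ ih.1, ih.2, Matrix.mulVec_mulVec]
          exact ⟨hTU _ ih.1, rfl⟩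
      exact ⟨Submodule.smul_mem _ _ key.1, by rw [key.2]⟩
  refine ⟨G.charpoly, Matrix.charpoly_monic G, ?_, fun v hv => ?_⟩
  · rw [Matrix.charpoly_natDegree_eq_dim, Fintype.card_fin, hm]
  · rw [← hT]
    obtain ⟨h1, h2⟩ := hpoly (G.charpoly.map (algebraMap ℝ ℂ)) v hv
    refine hQc _ h1 ?_
    rw [h2, ← Matrix.charpoly_map, Matrix.aeval_self_charpoly, Matrix.zero_mulVec]

/-- The half of the sum of the dimensions of the graded pieces, rounded down. -/
def halves (F : ℕ → Submodule ℚ (Fin d → ℚ)) (ℓ : ℕ) : ℕ :=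
  ∑ i ∈ Finset.range ℓ, (finrank ℚ (F (i + 1)) - finrank ℚ (F i)) / 2

/-- The annihilating polynomial for a flag. -/
theorem exists_annih {ι : Type} [Fintype ι] {F : ℕ → Submodule ℚ (Fin d → ℚ)} {ℓ : ℕ}
    (h0 : F 0 = ⊥) (hℓ : F ℓ = ⊤) (hmono : ∀ i, F i ≤ F (i + 1))
    (Z : ι → Matrix (Fin d) (Fin d) ℚ) (hZ : ∀ i k, ∀ u ∈ F k, ρ (Z i) u ∈ F k) (τ : ι → ℝ) :
    ∃ p : Polynomial ℝ, p ≠ 0 ∧ (upper p).card ≤ halves F ℓ ∧
      Polynomial.aeval (∑ i, (τ i : ℂ) • (Z i).map (fun q => (q : ℂ)))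
        (p.map (algebraMap ℝ ℂ)) = 0 := by
  choose p hp1 hp2 hp3 using fun k => exists_poly (hmono k) Z (fun i => hZ i (k + 1))
    (fun i => hZ i k) τ
  refine ⟨∏ i ∈ Finset.range ℓ, p i, Finset.prod_ne_zero_iff.2 fun i _ => (hp1 i).ne_zero, ?_, ?_⟩
  · refine (card_upper_prod p fun i => (hp1 i).ne_zero).trans (le_of_eq ?_)
    unfold halves
    exact Finset.sum_congr rfl fun i _ => by rw [hp2]
  · obtain ⟨T, hT⟩ : ∃ T, T = tl (∑ i, (τ i : ℂ) • (Z i).map (fun q => (q : ℂ))) := ⟨_, rfl⟩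
    have key : ∀ ℓ, ∀ v ∈ sp (F ℓ), Polynomial.aeval T
        ((∏ i ∈ Finset.range ℓ, p i).map (algebraMap ℝ ℂ)) v = 0 := by
      intro ℓ
      induction ℓ with
      | zero =>
        intro v hv
        rw [h0, mem_sp] at hv
        have h1 : v = 0 := by
          funext i
          rw [Pi.zero_apply, ← Module.forall_dual_apply_eq_zero_iff ℚ]
          intro lam
          have h2 := hv lam
          rw [Submodule.mem_bot] at h2
          exact congrFun h2 i
        rw [h1, map_zero]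
      | succ ℓ ih =>
        intro v hv
        rw [Finset.prod_range_succ, Polynomial.map_mul, map_mul, Module.End.mul_apply]
        refine ih _ ?_
        rw [hT]
        exact hp3 ℓ v hv
    have htl : ∀ (Y : Matrix (Fin d) (Fin d) ℂ) (P : Polynomial ℂ),
        tl (Polynomial.aeval Y P) = Polynomial.aeval (tl Y) P := by
      intro Y P
      induction P using Polynomial.induction_on' with
      | add p q hp hq => rw [map_add, map_add, tl_add, hp, hq]
      | monomial n a =>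
        rw [Polynomial.aeval_monomial, Polynomial.aeval_monomial,
          Algebra.algebraMap_eq_smul_one, Algebra.algebraMap_eq_smul_one, smul_mul_assoc,
          smul_mul_assoc, one_mul, one_mul, tl_smul, tl_pow]
    apply tl_inj
    rw [htl, tl_zero, ← hT]
    refine LinearMap.ext fun v => ?_
    refine key ℓ v ?_
    rw [hℓ, mem_sp]
    exact fun _ => Submodule.mem_top

end Pool.Agent.V8H93.CS

end
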